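import Pool.Agent.V5helper57.Tat.Gau

/-!
# The mean values of the coefficients of products of independent polynomials
-/

set_option autoImplicit false

namespace Pool.Agent.V5helper57.Tat

open Finset Polynomial
open Pool.Agent.V5helper57.Prd

/-- The coefficients up to degree `k` are at most `A`. -/
def nrm (k : ℕ) (P : ℝ[X]) (A : ℝ) : Prop := ∀ l ≤ k, |P.coeff l| ≤ A

theorem nrm.mono {k : ℕ} {P : ℝ[X]} {A B : ℝ} (h : nrm k P A) (hAB : A ≤ B) : nrm k P B := fun l hl => (h l hl).trans hAB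

theorem nrm.mul {k : ℕ} {P Q : ℝ[X]} {A B : ℝ} (hP : nrm k P A) (hQ : nrm k Q B) : nrm k (P * Q) ((k + 1) * (A * B)) := by
  have hA : 0 ≤ A := (abs_nonneg _).trans (hP 0 (by omega))
  have hB : 0 ≤ B := (abs_nonneg _).trans (hQ 0 (by omega))
  intro l hl
  rw [coeff_mul]
  refine (abs_sum_le_sum_abs _ _).trans ?_
  have h1 : ∀ x ∈ antidiagonal l, |P.coeff x.1 * Q.coeff x.2| ≤ A * B := by
    intro x hx
    have := mem_antidiagonal.1 hx
    rw [abs_mul]
    exact mul_le_mul (hP _ (by omega)) (hQ _ (by omega)) (abs_nonneg _) hA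
  refine (sum_le_sum h1).trans ?_
  rw [sum_const, Nat.card_antidiagonal, nsmul_eq_mul]
  refine mul_le_mul_of_nonneg_right ?_ (by positivity)
  push_cast
  have : (l : ℝ) ≤ k := by exact_mod_cast hl
  linarith

theorem nrm_one (k : ℕ) : nrm k 1 1 := by
  intro l _
  rw [coeff_one]
  split_ifs <;> simp

theorem nrm.prod {ι : Type} [DecidableEq ι] {k : ℕ} {P : ι → ℝ[X]} {A : ℝ} (s : Finset ι) (h : ∀ i ∈ s, nrm k (P i) A) :
    nrm k (∏ i ∈ s, P i) (((k + 1) * A) ^ s.card) := by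
  induction s using Finset.induction_on with
  | empty => simpa using nrm_one k
  | insert a s ha ih =>
    have ih := ih (fun i hi => h i (mem_insert_of_mem hi))
    rw [prod_insert ha, card_insert_of_notMem ha]
    have h1 := (h a (mem_insert_self a s)).mul ih
    refine h1.mono (le_of_eq ?_)
    ring

theorem nrm.add {k : ℕ} {P Q : ℝ[X]} {A B : ℝ} (hP : nrm k P A) (hQ : nrm k Q B) : nrm k (P + Q) (A + B) := by
  intro l hl
  rw [coeff_add]
  exact (abs_add_le _ _).trans (add_le_add (hP l hl) (hQ l hl))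

theorem near_prod {ι : Type} [DecidableEq ι] {k : ℕ} {P R : ι → ℝ[X]} {A ε : ℝ} (hA : 1 ≤ A) (hε : 0 ≤ ε) (s : Finset ι)
    (hP : ∀ i ∈ s, nrm k (P i) A) (hR : ∀ i ∈ s, nrm k (R i) A) (h : ∀ i ∈ s, nrm k (P i - R i) ε) :
    nrm k (∏ i ∈ s, P i - ∏ i ∈ s, R i) (s.card * ((k + 1) * A) ^ s.card * ε) := by
  induction s using Finset.induction_on with
  | empty => 
    simp only [prod_empty, sub_self, card_empty, Nat.cast_zero, zero_mul]
    intro l _
    simp
  | insert a s ha ih =>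
    have ih := ih (fun i hi => hP i (mem_insert_of_mem hi)) (fun i hi => hR i (mem_insert_of_mem hi))
      (fun i hi => h i (mem_insert_of_mem hi))
    rw [prod_insert ha, prod_insert ha, card_insert_of_notMem ha]
    have e : P a * ∏ j ∈ s, P j - R a * ∏ j ∈ s, R j = P a * (∏ j ∈ s, P j - ∏ j ∈ s, R j) + (P a - R a) * ∏ j ∈ s, R j := by ring
    rw [e]
    have h1 := (hP a (mem_insert_self a s)).mul ih
    have h2 := (h a (mem_insert_self a s)).mul (nrm.prod s fun i hi => hR i (mem_insert_of_mem hi))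
    refine (h1.add h2).mono ?_
    have hK : 1 ≤ (k + 1) * A := by
      have : (0 : ℝ) ≤ k := Nat.cast_nonneg k
      nlinarith
    have hk : (k : ℝ) + 1 ≤ (k + 1) * A := by
      have : (0 : ℝ) ≤ k := Nat.cast_nonneg k
      nlinarith
    have h3 : (k + 1) * (ε * ((k + 1) * A) ^ s.card) ≤ ((k + 1) * A) ^ (s.card + 1) * ε := by
      calc (k + 1) * (ε * ((k + 1) * A) ^ s.card) ≤ ((k + 1) * A) * (ε * ((k + 1) * A) ^ s.card) := by gcongr
        _ = _ := by ring
    push_cast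
    calc (k + 1) * (A * (s.card * ((k + 1) * A) ^ s.card * ε)) + (k + 1) * (ε * ((k + 1) * A) ^ s.card)
        ≤ (k + 1) * (A * (s.card * ((k + 1) * A) ^ s.card * ε)) + ((k + 1) * A) ^ (s.card + 1) * ε := by linarith
      _ = _ := by ring

/-- The mean of a polynomial. -/
noncomputable def avp {U : Type} [Fintype U] (f : U → ℝ[X]) : ℝ[X] := C ((Fintype.card U : ℝ)⁻¹) * ∑ u, f u

theorem avp_coeff {U : Type} [Fintype U] (f : U → ℝ[X]) (l : ℕ) : (avp f).coeff l = av (fun u => (f u).coeff l) := by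
  unfold avp av
  rw [coeff_C_mul, finset_sum_coeff]
  field_simp

theorem avp_prod {n : ℕ} {U : Fin n → Type} [∀ j, Fintype (U j)] (h : ∀ j, U j → ℝ[X]) :
    avp (fun t : ∀ j, U j => ∏ j, h j (t j)) = ∏ j, avp (h j) := by
  classical
  unfold avp
  rw [prod_mul_distrib, Finset.prod_univ_sum, Fintype.piFinset_univ, Fintype.card_pi]
  congr 1
  rw [← map_prod]
  congr 1
  push_cast
  rw [prod_inv_distrib]

theorem nrm.avp {U : Type} [Fintype U] [Nonempty U] {k : ℕ} {f : U → ℝ[X]} {A : ℝ} (h : ∀ u, nrm k (f u) A) : nrm k (avp f) A := by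
  intro l hl
  rw [avp_coeff]
  exact av_abs_le fun u => h u l hl

/-- The Poincaré polynomial of a curve with the normalised trace `x`, to the power `e`. -/
noncomputable def QQ (x : ℝ) (e : ℕ) : ℝ[X] := (1 + C x * X + X ^ 2) ^ e

/-- The mean value of `QQ` for a normal distribution of `x`. -/
noncomputable def gzN (e : ℕ) : ℕ[X] := ∑ h ∈ range (e + 1), C (e.choose h * mu h) * X ^ h * (1 + X ^ 2) ^ (e - h)

noncomputable def gz (e : ℕ) : ℝ[X] := (gzN e).map (Nat.castRingHom ℝ)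

theorem gz_eq (e : ℕ) : gz e = ∑ h ∈ range (e + 1), C ((mu h : ℝ) * e.choose h) * (X ^ h * (1 + X ^ 2) ^ (e - h)) := by
  unfold gz gzN
  rw [Polynomial.map_sum]
  refine sum_congr rfl fun h _ => ?_
  simp only [Polynomial.map_mul, map_C, Polynomial.map_pow, Polynomial.map_add, Polynomial.map_one, map_X]
  rw [mul_assoc]
  congr 2
  simp only [Nat.coe_castRingHom]
  push_cast
  ring

theorem QQ_eq (x : ℝ) (e : ℕ) : QQ x e = ∑ h ∈ range (e + 1), C (x ^ h * e.choose h) * (X ^ h * (1 + X ^ 2) ^ (e - h)) := by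
  unfold QQ
  have e1 : (1 + C x * X + X ^ 2 : ℝ[X]) = C x * X + (1 + X ^ 2) := by ring
  rw [e1, add_pow]
  refine sum_congr rfl fun h _ => ?_
  rw [mul_pow, C_mul, C_pow, map_natCast]
  ring

theorem QQ_nrm {x A : ℝ} (hx : |x| ≤ A) (k e : ℕ) : nrm k (QQ x e) (((k + 1) * (1 + A)) ^ e) := by
  classical
  have hA : 0 ≤ A := (abs_nonneg x).trans hx
  have h1 : nrm k (1 + C x * X + X ^ 2) (1 + A) := by
    intro l _
    rw [coeff_add, coeff_add, coeff_one, coeff_C_mul_X, coeff_X_pow]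
    rcases l with _ | _ | _ | l
    · simp
      linarith
    · simp
      linarith
    · simp
      linarith
    · simp
      linarith
  have h2 := nrm.prod (k := k) (P := fun _ : Fin e => (1 + C x * X + X ^ 2 : ℝ[X])) (univ : Finset (Fin e)) fun _ _ => h1
  simp only [prod_const, card_univ, Fintype.card_fin] at h2
  exact h2

/-- The mean value of `QQ`. -/
theorem QQ_near (e k : ℕ) : ∃ C : ℝ, 0 ≤ C ∧ ∀ (U : Type) [Fintype U] [Nonempty U] (x : U → ℝ) (ε : ℝ),
    (∀ h, h ≤ e → h ≤ k → |av (fun u => x u ^ h) - mu h| ≤ ε) → nrm k (avp (fun u => QQ (x u) e) - gz e) (C * ε) := by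
  obtain ⟨C, hC⟩ : ∃ C : ℝ, C = ∑ h ∈ range (e + 1), (e.choose h : ℝ) * ∑ l ∈ range (k + 1), |(X ^ h * (1 + X ^ 2) ^ (e - h) : ℝ[X]).coeff l| := ⟨_, rfl⟩
  refine ⟨C, by rw [hC]; positivity, fun U _ _ x ε h l hl => ?_⟩
  rw [coeff_sub, avp_coeff, gz_eq]
  simp only [QQ_eq, finset_sum_coeff, coeff_C_mul]
  have e1 : av (fun u => ∑ b ∈ range (e + 1), x u ^ b * (e.choose b : ℝ) * (X ^ b * (1 + X ^ 2) ^ (e - b) : ℝ[X]).coeff l) =
      ∑ b ∈ range (e + 1), av (fun u => x u ^ b) * (e.choose b : ℝ) * (X ^ b * (1 + X ^ 2) ^ (e - b) : ℝ[X]).coeff l := by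
    rw [av_sum]
    refine sum_congr rfl fun b _ => ?_
    have : (fun u => x u ^ b * (e.choose b : ℝ) * (X ^ b * (1 + X ^ 2) ^ (e - b) : ℝ[X]).coeff l) =
        fun u => ((e.choose b : ℝ) * (X ^ b * (1 + X ^ 2) ^ (e - b) : ℝ[X]).coeff l) * x u ^ b := by
      funext u
      ring
    rw [this, av_mul]
    ring
  rw [e1, ← sum_sub_distrib, hC, sum_mul]
  refine (abs_sum_le_sum_abs _ _).trans (sum_le_sum fun b hb => ?_)
  have hb' := mem_range.1 hb
  have e2 : av (fun u => x u ^ b) * (e.choose b : ℝ) * (X ^ b * (1 + X ^ 2) ^ (e - b) : ℝ[X]).coeff l -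
      (mu b : ℝ) * (e.choose b : ℝ) * (X ^ b * (1 + X ^ 2) ^ (e - b) : ℝ[X]).coeff l =
      (e.choose b : ℝ) * ((X ^ b * (1 + X ^ 2) ^ (e - b) : ℝ[X]).coeff l * (av (fun u => x u ^ b) - mu b)) := by ring
  rw [e2, abs_mul, abs_of_nonneg (by positivity : (0 : ℝ) ≤ (e.choose b : ℝ)), mul_assoc]
  refine mul_le_mul_of_nonneg_left ?_ (by positivity)
  rw [abs_mul]
  by_cases hbl : b ≤ l
  · have h1 := h b (by omega) (by omega)
    refine mul_le_mul ?_ h1 (abs_nonneg _) (by positivity)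
    exact single_le_sum (f := fun l => |(X ^ b * (1 + X ^ 2) ^ (e - b) : ℝ[X]).coeff l|) (fun _ _ => abs_nonneg _)
      (mem_range.2 (by omega))
  · have h1 : (X ^ b * (1 + X ^ 2) ^ (e - b) : ℝ[X]).coeff l = 0 := by
      rw [coeff_X_pow_mul', if_neg hbl]
    rw [h1, abs_zero, zero_mul]
    have hε : 0 ≤ ε := (abs_nonneg _).trans (h 0 (by omega) (by omega))
    positivity

/-- **The mean values of the coefficients of the product.** -/
theorem product_near {n : ℕ} (e : Fin n → ℕ) (k : ℕ) (A : ℝ) : ∃ C : ℝ, 0 ≤ C ∧ ∀ (U : Fin n → Type) [∀ i, Fintype (U i)]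
    [∀ i, Nonempty (U i)] (x : ∀ i, U i → ℝ) (ε : ℝ), (∀ i u, |x i u| ≤ A) →
    (∀ i h, h ≤ e i → h ≤ k → |av (fun u => x i u ^ h) - mu h| ≤ ε) →
    ∀ l ≤ k, |av (fun t : ∀ i, U i => (∏ i, QQ (x i (t i)) (e i)).coeff l) - (∏ i, gz (e i)).coeff l| ≤ C * ε := by
  classical
  choose C hC0 hC using fun i => QQ_near (e i) k
  obtain ⟨B, hB⟩ : ∃ B : ℝ, B = 1 + ∑ i, |((k + 1) * (1 + A)) ^ e i| + ∑ i, ∑ l ∈ range (k + 1), |(gz (e i)).coeff l| := ⟨_, rfl⟩
  have hB1 : 1 ≤ B := by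
    rw [hB]
    have h1 : 0 ≤ ∑ i, |((k + 1) * (1 + A)) ^ e i| := sum_nonneg fun _ _ => abs_nonneg _
    have h2 : 0 ≤ ∑ i, ∑ l ∈ range (k + 1), |(gz (e i)).coeff l| := sum_nonneg fun _ _ => sum_nonneg fun _ _ => abs_nonneg _
    linarith
  obtain ⟨D, hD⟩ : ∃ D : ℝ, D = ∑ i, C i := ⟨_, rfl⟩
  have hD0 : 0 ≤ D := by rw [hD]; exact sum_nonneg fun i _ => hC0 i
  refine ⟨n * ((k + 1) * B) ^ n * D, by positivity, fun U _ _ x ε hx hm l hl => ?_⟩
  rcases Nat.eq_zero_or_pos n with rfl | hn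
  · simp only [univ_eq_empty, prod_empty]
    rw [av_const]
    simp
  · have hε : 0 ≤ ε := (abs_nonneg _).trans (hm ⟨0, hn⟩ 0 (by omega) (by omega))
    rw [← avp_coeff (fun t : ∀ i, U i => ∏ i, QQ (x i (t i)) (e i)) l, avp_prod (fun i u => QQ (x i u) (e i)), ← coeff_sub]
    have h1 := near_prod (k := k) (P := fun i => avp (fun u => QQ (x i u) (e i))) (R := fun i => gz (e i)) hB1
      (ε := D * ε) (by positivity) univ ?_ ?_ ?_ l hl
    · rw [card_univ, Fintype.card_fin] at h1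
      refine h1.trans (le_of_eq ?_)
      ring
    · intro i _
      refine (nrm.avp fun u => QQ_nrm (hx i u) k (e i)).mono ?_
      rw [hB]
      have h1 : |((k + 1) * (1 + A)) ^ e i| ≤ ∑ i, |((k + 1) * (1 + A)) ^ e i| :=
        single_le_sum (f := fun i => |((k + 1) * (1 + A)) ^ e i|) (fun _ _ => abs_nonneg _) (mem_univ i)
      have h2 : 0 ≤ ∑ i, ∑ l ∈ range (k + 1), |(gz (e i)).coeff l| := sum_nonneg fun _ _ => sum_nonneg fun _ _ => abs_nonneg _
      linarith [le_abs_self (((k + 1) * (1 + A)) ^ e i)]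
    · intro i _ l hl
      rw [hB]
      have h1 : |(gz (e i)).coeff l| ≤ ∑ l ∈ range (k + 1), |(gz (e i)).coeff l| :=
        single_le_sum (f := fun l => |(gz (e i)).coeff l|) (fun _ _ => abs_nonneg _) (mem_range.2 (by omega))
      have h2 : ∑ l ∈ range (k + 1), |(gz (e i)).coeff l| ≤ ∑ i, ∑ l ∈ range (k + 1), |(gz (e i)).coeff l| :=
        single_le_sum (f := fun i => ∑ l ∈ range (k + 1), |(gz (e i)).coeff l|) (fun _ _ => sum_nonneg fun _ _ => abs_nonneg _) (mem_univ i)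
      have h3 : 0 ≤ ∑ i, |((k + 1) * (1 + A)) ^ e i| := sum_nonneg fun _ _ => abs_nonneg _
      linarith
    · intro i _
      refine (hC i (U i) (x i) ε (hm i)).mono ?_
      refine mul_le_mul_of_nonneg_right ?_ hε
      rw [hD]
      exact single_le_sum (f := C) (fun i _ => hC0 i) (mem_univ i)

/-- The polynomial has only even powers. -/
def evn (P : ℝ[X]) : Prop := ∀ l, ¬ Even l → P.coeff l = 0

theorem evn.mul {P Q : ℝ[X]} (hP : evn P) (hQ : evn Q) : evn (P * Q) := by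
  intro l hl
  rw [coeff_mul]
  refine sum_eq_zero fun x hx => ?_
  have := mem_antidiagonal.1 hx
  by_cases h1 : Even x.1
  · by_cases h2 : Even x.2
    · exact absurd (this ▸ h1.add h2) hl
    · rw [hQ _ h2, mul_zero]
  · rw [hP _ h1, zero_mul]

theorem evn_one : evn 1 := by
  intro l hl
  rw [coeff_one, if_neg]
  rintro rfl
  exact hl ⟨0, rfl⟩

theorem evn.prod {ι : Type} [DecidableEq ι] {P : ι → ℝ[X]} (s : Finset ι) (h : ∀ i, evn (P i)) : evn (∏ i ∈ s, P i) := by
  induction s using Finset.induction_on with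
  | empty => simpa using evn_one
  | insert a s ha ih =>
    rw [prod_insert ha]
    exact (h a).mul ih

theorem gz_evn (e : ℕ) : evn (gz e) := by
  intro l hl
  rw [gz_eq, finset_sum_coeff]
  refine sum_eq_zero fun h _ => ?_
  rw [coeff_C_mul]
  by_cases hh : Even h
  · have h1 : evn (X ^ h * (1 + X ^ 2) ^ (e - h) : ℝ[X]) := by
      refine evn.mul ?_ ?_
      · intro l hl
        rw [coeff_X_pow, if_neg]
        rintro rfl
        exact hl hh
      · have h2 : evn (1 + X ^ 2 : ℝ[X]) := by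
          intro l hl
          rw [coeff_add, coeff_one, coeff_X_pow, if_neg, if_neg, add_zero]
          · rintro rfl
            exact hl ⟨1, rfl⟩
          · rintro rfl
            exact hl ⟨0, rfl⟩
        have h3 := evn.prod (univ : Finset (Fin (e - h))) fun _ => h2
        simpa using h3
    rw [h1 l hl, mul_zero]
  · rw [mu_odd hh, Nat.cast_zero, zero_mul, zero_mul]

end Pool.Agent.V5helper57.Tat
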