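import Pool.Agent.V5helper57.Tat.Ind
import Pool.Agent.V5helper57.Tat.Pol

/-!
# Euler factors given by traces
-/

set_option autoImplicit false

namespace Pool.Agent.V5helper57.Tat

open Finset Polynomial
open Pool.Agent.N647.NG (ch ch_abs sum_ch)
open Pool.Agent.V5helper57.Prd
open Pool.Agent.V5helper57.Hyp (affN exists_ext affN_eq weil_ext)

/-- The function `exp (∑ τ_m N ^ (-m s) / m)`. -/
noncomputable def eul (τ : ℕ → ℂ) (N : ℕ) (s : ℂ) : ℂ :=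
  Complex.exp (∑' m : ℕ, τ (m + 1) * (N : ℂ) ^ (-((m + 1 : ℕ) : ℂ) * s) / ((m + 1 : ℕ) : ℂ))

/-- The traces `τ_m` are at most `D · N ^ (k m / 2)`. -/
def tb (k N : ℕ) (D : ℝ) (τ : ℕ → ℂ) : Prop := ∀ m : ℕ, 1 ≤ m → ‖τ m‖ ≤ D * √N ^ (k * m)

theorem tb.add {k N : ℕ} {D D' : ℝ} {τ τ' : ℕ → ℂ} (h : tb k N D τ) (h' : tb k N D' τ') : tb k N (D + D') (fun m => τ m + τ' m) := by
  intro m hm
  refine (norm_add_le _ _).trans ?_
  rw [add_mul]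
  exact add_le_add (h m hm) (h' m hm)

theorem tb.neg {k N : ℕ} {D : ℝ} {τ : ℕ → ℂ} (h : tb k N D τ) : tb k N D (fun m => -τ m) := by
  intro m hm
  rw [norm_neg]
  exact h m hm

theorem sqrt_pow_rpow {N : ℕ} (hN : 2 ≤ N) (k : ℕ) : √(N : ℝ) ^ k = (N : ℝ) ^ ((k : ℝ) / 2) := by
  rw [Real.sqrt_eq_rpow, ← Real.rpow_natCast, ← Real.rpow_mul (by positivity)]
  congr 1
  ring

/-- One term. -/
theorem term_le {k N : ℕ} (hN : 2 ≤ N) {D : ℝ} (hD : 0 ≤ D) {τ : ℕ → ℂ} (h : tb k N D τ) {σ' : ℝ} {s : ℂ}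
    (hs : σ' + ((k : ℝ) - 1) / 2 ≤ s.re) (m : ℕ) :
    ‖τ (m + 1) * (N : ℂ) ^ (-((m + 1 : ℕ) : ℂ) * s) / ((m + 1 : ℕ) : ℂ)‖ ≤ D * ((N : ℝ) ^ (1 / 2 - σ')) ^ (m + 1) := by
  have hN0 : (0 : ℝ) < N := by positivity
  have hN1 : (1 : ℝ) ≤ N := by exact_mod_cast (by omega : 1 ≤ N)
  have h1 : ‖(N : ℂ) ^ (-((m + 1 : ℕ) : ℂ) * s)‖ = (N : ℝ) ^ (-((m + 1 : ℕ) : ℝ) * s.re) := by
    rw [Complex.norm_natCast_cpow_of_pos (by omega)]
    congr 1
    simp [Complex.add_re, Complex.mul_re]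
  have h2 : (1 : ℝ) ≤ ((m + 1 : ℕ) : ℝ) := by exact_mod_cast (by omega : 1 ≤ m + 1)
  have h0 : (0 : ℝ) ≤ ((m + 1 : ℕ) : ℝ) := by positivity
  rw [norm_div, norm_mul, h1, Complex.norm_natCast, div_le_iff₀ (by positivity)]
  have h3 := h (m + 1) (by omega)
  have h4 : √(N : ℝ) ^ (k * (m + 1)) = (N : ℝ) ^ (((k : ℝ) * ((m + 1 : ℕ) : ℝ)) / 2) := by
    rw [sqrt_pow_rpow hN]
    push_cast
    rfl
  rw [h4] at h3
  calc ‖τ (m + 1)‖ * (N : ℝ) ^ (-((m + 1 : ℕ) : ℝ) * s.re) ≤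
        (D * (N : ℝ) ^ (((k : ℝ) * ((m + 1 : ℕ) : ℝ)) / 2)) * (N : ℝ) ^ (-((m + 1 : ℕ) : ℝ) * s.re) := by gcongr
    _ = D * (N : ℝ) ^ (((k : ℝ) * ((m + 1 : ℕ) : ℝ)) / 2 + -((m + 1 : ℕ) : ℝ) * s.re) := by
        rw [Real.rpow_add hN0]
        ring
    _ ≤ D * (N : ℝ) ^ ((1 / 2 - σ') * ((m + 1 : ℕ) : ℝ)) := by
        refine mul_le_mul_of_nonneg_left (Real.rpow_le_rpow_of_exponent_le hN1 ?_) hD
        have h5 : ((k : ℝ) / 2 - s.re) * ((m + 1 : ℕ) : ℝ) ≤ (1 / 2 - σ') * ((m + 1 : ℕ) : ℝ) :=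
          mul_le_mul_of_nonneg_right (by linarith) h0
        linarith
    _ = D * ((N : ℝ) ^ (1 / 2 - σ')) ^ (m + 1) := by
        rw [Real.rpow_mul hN0.le, Real.rpow_natCast]
    _ ≤ D * ((N : ℝ) ^ (1 / 2 - σ')) ^ (m + 1) * ((m + 1 : ℕ) : ℝ) := by
        refine le_mul_of_one_le_right (by positivity) h2

theorem rho_le {N : ℕ} (hN : 2 ≤ N) {σ' : ℝ} (hσ : 1 < σ') : (N : ℝ) ^ (1 / 2 - σ') ≤ 3 / 4 := by
  have hN2 : (2 : ℝ) ≤ N := by exact_mod_cast hN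
  calc (N : ℝ) ^ (1 / 2 - σ') ≤ (N : ℝ) ^ (-(1 / 2) : ℝ) :=
        Real.rpow_le_rpow_of_exponent_le (by linarith) (by linarith)
    _ ≤ 2 ^ (-(1 / 2) : ℝ) := Real.rpow_le_rpow_of_nonpos (by norm_num) hN2 (by norm_num)
    _ ≤ 3 / 4 := by
        rw [Real.rpow_neg (by norm_num), ← Real.sqrt_eq_rpow, inv_le_comm₀ (by positivity) (by norm_num)]
        apply Real.le_sqrt_of_sq_le
        norm_num

theorem term_summable {k N : ℕ} (hN : 2 ≤ N) {D : ℝ} (hD : 0 ≤ D) {τ : ℕ → ℂ} (h : tb k N D τ) {σ' : ℝ} (hσ : 1 < σ') {s : ℂ}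
    (hs : σ' + ((k : ℝ) - 1) / 2 ≤ s.re) :
    Summable fun m : ℕ => τ (m + 1) * (N : ℂ) ^ (-((m + 1 : ℕ) : ℂ) * s) / ((m + 1 : ℕ) : ℂ) := by
  have hr := rho_le hN hσ
  have h0 : 0 ≤ (N : ℝ) ^ (1 / 2 - σ') := by positivity
  refine Summable.of_norm_bounded (g := fun m => D * ((N : ℝ) ^ (1 / 2 - σ')) ^ (m + 1)) ?_ fun m => term_le hN hD h hs m
  exact ((summable_nat_add_iff 1).2 (summable_geometric_of_lt_one h0 (by linarith))).mul_left D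

/-- **The first term of the logarithm.** -/
theorem eul_near {k N : ℕ} (hN : 2 ≤ N) {D : ℝ} (hD : 0 ≤ D) {τ : ℕ → ℂ} (h : tb k N D τ) {σ' : ℝ} (hσ : 1 < σ') {s : ℂ}
    (hs : σ' + ((k : ℝ) - 1) / 2 ≤ s.re) :
    ‖(∑' m : ℕ, τ (m + 1) * (N : ℂ) ^ (-((m + 1 : ℕ) : ℂ) * s) / ((m + 1 : ℕ) : ℂ)) - τ 1 * (N : ℂ) ^ (-s)‖ ≤
      4 * D * (N : ℝ) ^ (-(2 * σ' - 1)) := by
  have hN0 : (0 : ℝ) < N := by positivity
  have hr := rho_le hN hσ
  obtain ⟨ρ, hρ⟩ : ∃ ρ : ℝ, ρ = (N : ℝ) ^ (1 / 2 - σ') := ⟨_, rfl⟩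
  have h0 : 0 ≤ ρ := by rw [hρ]; positivity
  have hρ2 : ρ ^ 2 = (N : ℝ) ^ (-(2 * σ' - 1)) := by
    rw [hρ, ← Real.rpow_natCast, ← Real.rpow_mul hN0.le]
    congr 1
    push_cast
    ring
  have hs1 := term_summable hN hD h hσ hs
  have e : (∑' m : ℕ, τ (m + 1) * (N : ℂ) ^ (-((m + 1 : ℕ) : ℂ) * s) / ((m + 1 : ℕ) : ℂ)) - τ 1 * (N : ℂ) ^ (-s) =
      ∑' m : ℕ, τ (m + 1 + 1) * (N : ℂ) ^ (-((m + 1 + 1 : ℕ) : ℂ) * s) / ((m + 1 + 1 : ℕ) : ℂ) := by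
    rw [← hs1.sum_add_tsum_nat_add 1, Finset.sum_range_one]
    simp
  rw [e, ← hρ2]
  rw [← hρ] at hr
  have hs2 : HasSum (fun m : ℕ => D * ρ ^ 2 * ρ ^ m) (D * ρ ^ 2 * (1 - ρ)⁻¹) :=
    (hasSum_geometric_of_lt_one h0 (by linarith)).mul_left _
  have h1 := tsum_of_norm_bounded (f := fun m : ℕ => τ (m + 1 + 1) * (N : ℂ) ^ (-((m + 1 + 1 : ℕ) : ℂ) * s) / ((m + 1 + 1 : ℕ) : ℂ))
    hs2 fun m => by
      refine (term_le hN hD h hs (m + 1)).trans (le_of_eq ?_)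
      rw [← hρ]
      ring
  refine h1.trans ?_
  have h3 : (1 - ρ)⁻¹ ≤ 4 := by
    rw [inv_le_comm₀ (by linarith) (by norm_num)]
    linarith
  calc D * ρ ^ 2 * (1 - ρ)⁻¹ ≤ D * ρ ^ 2 * 4 := by gcongr
    _ = 4 * D * ρ ^ 2 := by ring

/-- The product of two factors. -/
theorem eul_mul {k N : ℕ} (hN : 2 ≤ N) {D D' : ℝ} (hD : 0 ≤ D) (hD' : 0 ≤ D') {τ τ' : ℕ → ℂ} (h : tb k N D τ) (h' : tb k N D' τ')
    {σ' : ℝ} (hσ : 1 < σ') {s : ℂ} (hs : σ' + ((k : ℝ) - 1) / 2 ≤ s.re) :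
    eul τ N s * eul τ' N s = eul (fun m => τ m + τ' m) N s := by
  unfold eul
  rw [← Complex.exp_add, ← (term_summable hN hD h hσ hs).tsum_add (term_summable hN hD' h' hσ hs)]
  congr 1
  refine tsum_congr fun m => ?_
  ring

theorem eul_zero (N : ℕ) (s : ℂ) : eul (fun _ => 0) N s = 1 := by
  unfold eul
  simp

theorem eul_ne (τ : ℕ → ℂ) (N : ℕ) (s : ℂ) : eul τ N s ≠ 0 := Complex.exp_ne_zero _

theorem eul_neg {τ : ℕ → ℂ} {N : ℕ} {s : ℂ} : eul (fun m => -τ m) N s = (eul τ N s)⁻¹ := by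
  unfold eul
  rw [← Complex.exp_neg, ← tsum_neg]
  congr 1
  refine tsum_congr fun m => ?_
  ring

/-- The factor with the multiplicity `n`. -/
theorem eul_pow (τ : ℕ → ℂ) (N : ℕ) (s : ℂ) (n : ℕ) : eul τ N s ^ n = eul (fun m => n * τ m) N s := by
  unfold eul
  rw [← Complex.exp_nat_mul, ← tsum_mul_left]
  congr 1
  refine tsum_congr fun m => ?_
  ring

theorem tb.nsmul {k N : ℕ} {D : ℝ} {τ : ℕ → ℂ} (h : tb k N D τ) (n : ℕ) : tb k N (n * D) (fun m => n * τ m) := by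
  intro m hm
  rw [norm_mul, Complex.norm_natCast, mul_assoc]
  exact mul_le_mul_of_nonneg_left (h m hm) (by positivity)

/-! ### Eigenvalues -/

/-- The power sums. -/
noncomputable def psm (β : Multiset ℂ) (m : ℕ) : ℂ := (β.map fun z => z ^ m).sum

theorem psm_le {β : Multiset ℂ} {A : ℝ} (h : ∀ z ∈ β, ‖z‖ ≤ A) (m : ℕ) : ‖psm β m‖ ≤ β.card * A ^ m := by
  induction β using Multiset.induction_on with
  | empty => simp [psm]
  | cons a β ih =>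
    have ih := ih fun z hz => h z (Multiset.mem_cons_of_mem hz)
    unfold psm at ih ⊢
    rw [Multiset.map_cons, Multiset.sum_cons, Multiset.card_cons]
    refine (norm_add_le _ _).trans ?_
    have h1 : ‖a ^ m‖ ≤ A ^ m := by
      rw [norm_pow]
      exact pow_le_pow_left₀ (norm_nonneg _) (h a (Multiset.mem_cons_self a β)) m
    push_cast
    linarith

/-- The factor of the eigenvalues. -/
theorem eul_psm {k N : ℕ} (hN : 2 ≤ N) {β : Multiset ℂ} (h : ∀ z ∈ β, ‖z‖ ≤ √N ^ k)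
    {σ' : ℝ} (hσ : 1 < σ') {s : ℂ} (hs : σ' + ((k : ℝ) - 1) / 2 ≤ s.re) :
    eul (psm β) N s = (β.map fun z => (1 - z * (N : ℂ) ^ (-s))⁻¹).prod := by
  induction β using Multiset.induction_on with
  | empty =>
    rw [Multiset.map_zero, Multiset.prod_zero]
    have : psm 0 = fun _ => 0 := by
      funext m
      simp [psm]
    rw [this, eul_zero]
  | cons a β ih =>
    have ha := h a (Multiset.mem_cons_self a β)
    have hβ : ∀ z ∈ β, ‖z‖ ≤ √N ^ k := fun z hz => h z (Multiset.mem_cons_of_mem hz)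
    have ih := ih hβ
    rw [Multiset.map_cons, Multiset.prod_cons, ← ih]
    have h1 : tb k N 1 (fun m => a ^ m) := by
      intro m _
      rw [norm_pow, one_mul, pow_mul]
      exact pow_le_pow_left₀ (norm_nonneg _) ha m
    have h2 : tb k N β.card (psm β) := by
      intro m _
      rw [pow_mul]
      exact psm_le hβ m
    have e1 : psm (a ::ₘ β) = fun m => a ^ m + psm β m := by
      funext m
      unfold psm
      rw [Multiset.map_cons, Multiset.sum_cons]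
    rw [e1, ← eul_mul hN zero_le_one (by positivity) h1 h2 hσ hs]
    congr 1
    have hNC : (N : ℂ) ≠ 0 := by exact_mod_cast (by omega : N ≠ 0)
    have e2 : ∀ m : ℕ, (N : ℂ) ^ (-((m + 1 : ℕ) : ℂ) * s) = ((N : ℂ) ^ (-s)) ^ (m + 1) := by
      intro m
      rw [← Complex.cpow_nat_mul]
      congr 1
      ring
    have hw : ‖a * (N : ℂ) ^ (-s)‖ < 1 := by
      have h3 := term_le hN zero_le_one h1 hs 0
      simp only [zero_add, pow_one, Nat.cast_one, div_one, one_mul] at h3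
      have h4 := rho_le hN hσ
      have e3 : (N : ℂ) ^ (-1 * s) = (N : ℂ) ^ (-s) := by
        congr 1
        ring
      rw [e3] at h3
      linarith
    have h5 := (Complex.hasSum_taylorSeries_neg_log hw).tsum_eq
    unfold eul
    have e4 : ∑' m : ℕ, a ^ (m + 1) * (N : ℂ) ^ (-((m + 1 : ℕ) : ℂ) * s) / ((m + 1 : ℕ) : ℂ) = -Complex.log (1 - a * (N : ℂ) ^ (-s)) := by
      rw [← h5]
      have h6 : Summable fun n : ℕ => (a * (N : ℂ) ^ (-s)) ^ n / n := (Complex.hasSum_taylorSeries_neg_log hw).summable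
      rw [← h6.sum_add_tsum_nat_add 1, Finset.sum_range_one]
      simp only [pow_zero, Nat.cast_zero, div_zero, zero_add]
      refine tsum_congr fun m => ?_
      rw [e2, mul_pow]
    rw [e4, Complex.exp_neg, Complex.exp_log]
    intro h7
    have h8 : a * (N : ℂ) ^ (-s) = 1 := by linear_combination -h7
    rw [h8, norm_one] at hw
    exact lt_irrefl _ hw

end Pool.Agent.V5helper57.Tat
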