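import Pool.Agent.V5helper57.Tat.Main

/-!
# Reindexing and the ranks
-/

set_option autoImplicit false

namespace Pool.Agent.V5helper57.Tat

open Finset Polynomial NumberField IsDedekindDomain Q282.NF Pool.Agent.Y722.HS
open Pool.Agent.V5helper57.Zet (Wd mem_Wd two_le_norm prod_fin prod_split)

theorem EB_reindex {ι κ : Type} [Fintype ι] [DecidableEq ι] [Fintype κ] [DecidableEq κ] (φ : ι ≃ κ) (H : ℕ) (F : (ι → ℤ) → ℝ) :
    EB H (fun c : κ → ℤ => F (fun i => c (φ i))) = EB H F := by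
  unfold EB
  rw [Fintype.card_congr φ]
  congr 1
  refine sum_equiv (Equiv.arrowCongr φ.symm (Equiv.refl ℤ)) (fun c => ?_) (fun c _ => rfl)
  unfold Pool.Agent.Y722.HS.box
  rw [Fintype.mem_piFinset, Fintype.mem_piFinset]
  constructor
  · intro h i
    exact h (φ i)
  · intro h j
    have := h (φ.symm j)
    simpa [Equiv.arrowCongr] using this

/-- The coefficients of low degree. -/
theorem gzN_coeff (e : ℕ) : (gzN e).coeff 0 = 1 ∧ (gzN e).coeff 1 = 0 ∧ (gzN e).coeff 2 = (e + 1).choose 2 := by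
  have h0 : ∀ h l : ℕ, (C (e.choose h * mu h) * X ^ h * (1 + X ^ 2) ^ (e - h) : ℕ[X]).coeff l =
      if h ≤ l then e.choose h * mu h * ((1 + X ^ 2) ^ (e - h) : ℕ[X]).coeff (l - h) else 0 := by
    intro h l
    rw [mul_assoc, coeff_C_mul, coeff_X_pow_mul']
    split_ifs
    · rfl
    · rw [mul_zero]
  have hc : ∀ m : ℕ, ((1 + X ^ 2) ^ m : ℕ[X]).coeff 0 = 1 ∧ ((1 + X ^ 2) ^ m : ℕ[X]).coeff 1 = 0 ∧ ((1 + X ^ 2) ^ m : ℕ[X]).coeff 2 = m := by
    intro m
    induction m with
    | zero => simp [coeff_one]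
    | succ m ih =>
      obtain ⟨h1, h2, h3⟩ := ih
      rw [pow_succ, mul_add, mul_one]
      refine ⟨?_, ?_, ?_⟩
      · rw [coeff_add, h1, coeff_mul_X_pow', if_neg (by norm_num), add_zero]
      · rw [coeff_add, h2, coeff_mul_X_pow', if_neg (by norm_num), add_zero]
      · rw [coeff_add, h3, coeff_mul_X_pow', if_pos (by norm_num), Nat.sub_self, h1]
  have hmu1 : mu 1 = 0 := by decide
  have hmu2 : mu 2 = 1 := by decide
  have hmu0 : mu 0 = 1 := by decide
  have hsum : ∀ l ≤ 2, (gzN e).coeff l = ∑ h ∈ range 3, if h ≤ l then e.choose h * mu h * ((1 + X ^ 2) ^ (e - h) : ℕ[X]).coeff (l - h) else 0 := by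
    intro l hl
    unfold gzN
    rw [finset_sum_coeff]
    simp only [h0]
    rcases Nat.lt_or_ge e 2 with he | he
    · symm
      rw [← sum_subset (s₁ := range (e + 1)) (s₂ := range 3)]
      · intro x hx
        rw [mem_range] at hx ⊢
        omega
      · intro x _ hx
        rw [mem_range, not_lt] at hx
        rw [Nat.choose_eq_zero_of_lt (by omega), zero_mul, zero_mul]
        split_ifs <;> rfl
    · symm
      rw [← sum_subset (s₁ := range 3) (s₂ := range (e + 1))]
      · intro x hx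
        rw [mem_range] at hx ⊢
        omega
      · intro x _ hx
        rw [mem_range, not_lt] at hx
        rw [if_neg (by omega)]
  refine ⟨?_, ?_, ?_⟩
  · rw [hsum 0 (by norm_num)]
    simp [hmu0, (hc e).1]
  · rw [hsum 1 (by norm_num)]
    simp [sum_range_succ, hmu0, hmu1, (hc e).2.1]
  · rw [hsum 2 le_rfl]
    simp only [sum_range_succ, sum_range_zero, hmu0, hmu1, hmu2]
    norm_num
    rw [(hc e).2.2, (hc (e - 2)).1, mul_one, Nat.choose_succ_succ' e 1, Nat.choose_one_right]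

theorem prod_gzN_coeff {n : ℕ} (e : Fin n → ℕ) (s : Finset (Fin n)) : (∏ i ∈ s, gzN (e i)).coeff 0 = 1 ∧
    (∏ i ∈ s, gzN (e i)).coeff 1 = 0 ∧ (∏ i ∈ s, gzN (e i)).coeff 2 = ∑ i ∈ s, (e i + 1).choose 2 := by
  classical
  induction s using Finset.induction_on with
  | empty => simp [coeff_one]
  | insert a s ha ih =>
    obtain ⟨h1, h2, h3⟩ := ih
    obtain ⟨g1, g2, g3⟩ := gzN_coeff (e a)
    rw [prod_insert ha, sum_insert ha]
    refine ⟨?_, ?_, ?_⟩
    · rw [mul_coeff_zero, g1, h1, one_mul]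
    · rw [coeff_mul]
      simp [Nat.antidiagonal_succ, g1, g2, h1, h2]
    · rw [coeff_mul]
      simp [Nat.antidiagonal_succ, g1, g2, g3, h1, h2, h3]
      ring

theorem rk_zero {n : ℕ} (e : Fin n → ℕ) : rk e 0 = 1 := (prod_gzN_coeff e univ).1

theorem rk_one {n : ℕ} (e : Fin n → ℕ) : rk e 1 = ∑ i, (e i + 1).choose 2 := (prod_gzN_coeff e univ).2.2

end Pool.Agent.V5helper57.Tat
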