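import Pool.Agent.V5helper57.Prd.Abs

/-!
# The moments of sums of independent symmetric variables with the values `0, 1, -1`
-/

set_option autoImplicit false

namespace Pool.Agent.V5helper57.Tat

open Finset
open Pool.Agent.V5helper57.Prd

/-- The moments of the standard normal distribution. -/
def mu (h : ℕ) : ℕ := if Even h then Nat.doubleFactorial (h - 1) else 0

theorem mu_zero : mu 0 = 1 := by decide

theorem mu_odd {h : ℕ} (hh : ¬ Even h) : mu h = 0 := if_neg hh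

theorem mu_succ (p : ℕ) : mu (2 * (p + 1)) = (2 * p + 1) * mu (2 * p) := by
  unfold mu
  rw [if_pos ⟨p + 1, by ring⟩, if_pos ⟨p, by ring⟩]
  rcases Nat.eq_zero_or_pos p with rfl | hp
  · decide
  · have e1 : 2 * (p + 1) - 1 = (2 * p - 1) + 2 := by omega
    have e2 : 2 * p - 1 + 2 = 2 * p + 1 := by omega
    rw [e1, Nat.doubleFactorial_add_two, e2]

/-- The moments of one variable. -/
noncomputable def mm (θ : ℝ) (l : ℕ) : ℝ := if l = 0 then 1 else if Even l then θ else 0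

/-- The moments of the sum of `n` variables. -/
noncomputable def fr (θ : ℝ) : ℕ → ℕ → ℝ
  | 0, h => if h = 0 then 1 else 0
  | n + 1, h => ∑ l ∈ range (h + 1), (h.choose l : ℝ) * mm θ l * fr θ n (h - l)

theorem mm_odd (θ : ℝ) {l : ℕ} (hl : ¬ Even l) : mm θ l = 0 := by
  unfold mm
  rw [if_neg (by rintro rfl; exact hl ⟨0, rfl⟩), if_neg hl]

theorem fr_odd (θ : ℝ) (n : ℕ) : ∀ h : ℕ, ¬ Even h → fr θ n h = 0 := by
  induction n with
  | zero =>
    intro h hh
    unfold fr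
    rw [if_neg]
    rintro rfl
    exact hh ⟨0, rfl⟩
  | succ n ih =>
    intro h hh
    unfold fr
    refine sum_eq_zero fun l hl => ?_
    have hl' := mem_range.1 hl
    by_cases h1 : Even l
    · rw [ih (h - l), mul_zero]
      intro h2
      apply hh
      have := h1.add h2
      rwa [Nat.add_sub_cancel' (by omega)] at this
    · rw [mm_odd θ h1, mul_zero, zero_mul]

theorem sum_even {g : ℕ → ℝ} (hg : ∀ l, ¬ Even l → g l = 0) (p : ℕ) :
    ∑ l ∈ range (2 * p + 1), g l = ∑ i ∈ range (p + 1), g (2 * i) := by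
  induction p with
  | zero => simp
  | succ p ih =>
    rw [show 2 * (p + 1) + 1 = 2 * p + 1 + 1 + 1 by ring, sum_range_succ, sum_range_succ, ih,
      sum_range_succ (n := p + 1), hg (2 * p + 1) (by
        rw [Nat.not_even_iff_odd]
        exact ⟨p, rfl⟩), add_zero]
    rfl

theorem fr_zero (θ : ℝ) (n : ℕ) : fr θ n 0 = 1 := by
  induction n with
  | zero => simp [fr]
  | succ n ih =>
    unfold fr
    simp [mm, ih]

/-- The recursion for the even moments. -/
theorem fr_even (θ : ℝ) (n p : ℕ) : fr θ (n + 1) (2 * p) = fr θ n (2 * p) +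
    θ * ∑ i ∈ range p, ((2 * p).choose (2 * (i + 1)) : ℝ) * fr θ n (2 * (p - (i + 1))) := by
  rw [fr, sum_even (g := fun l => ((2 * p).choose l : ℝ) * mm θ l * fr θ n (2 * p - l)) (fun l hl => by
    rw [mm_odd θ hl, mul_zero, zero_mul]) p, sum_range_succ', add_comm]
  congr 1
  · simp [mm]
  · rw [mul_sum]
    refine sum_congr rfl fun i _ => ?_
    have e : 2 * p - 2 * (i + 1) = 2 * (p - (i + 1)) := by omega
    unfold mm
    rw [e, if_neg (by omega), if_pos ⟨i + 1, by ring⟩]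
    ring

theorem pow_step {n q : ℕ} (hn : n + 1 ≤ q) (P : ℕ) :
    0 ≤ ((n + 1 : ℕ) : ℝ) ^ P - (n : ℝ) ^ P - P * (n : ℝ) ^ (P - 1) ∧
    (q : ℝ) * (((n + 1 : ℕ) : ℝ) ^ P - (n : ℝ) ^ P - P * (n : ℝ) ^ (P - 1)) ≤ 2 ^ P * (q : ℝ) ^ (P - 1) := by
  have hnq : (n : ℝ) ≤ q := by exact_mod_cast (by omega : n ≤ q)
  have hnq' : (n : ℝ) + 1 ≤ q := by exact_mod_cast hn
  have hn0 : (0 : ℝ) ≤ n := Nat.cast_nonneg n
  have hq0 : (0 : ℝ) ≤ q := Nat.cast_nonneg q
  rcases P with _ | P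
  · simp
  · induction P with
    | zero =>
      simp
    | succ P ih =>
      obtain ⟨ih1, ih2⟩ := ih
      simp only [Nat.add_sub_cancel] at ih1 ih2 ⊢
      have e : ((n + 1 : ℕ) : ℝ) ^ (P + 1 + 1) - (n : ℝ) ^ (P + 1 + 1) - ((P + 1 + 1 : ℕ) : ℝ) * (n : ℝ) ^ (P + 1) =
          (n + 1) * (((n + 1 : ℕ) : ℝ) ^ (P + 1) - (n : ℝ) ^ (P + 1) - ((P + 1 : ℕ) : ℝ) * (n : ℝ) ^ P) + (P + 1) * (n : ℝ) ^ P := by
        push_cast
        ring
      rw [e]
      constructor
      · positivity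
      · have h1 : (q : ℝ) * ((n + 1) * (((n + 1 : ℕ) : ℝ) ^ (P + 1) - (n : ℝ) ^ (P + 1) - ((P + 1 : ℕ) : ℝ) * (n : ℝ) ^ P)) ≤
            q * (2 ^ (P + 1) * (q : ℝ) ^ P) := by
          calc (q : ℝ) * ((n + 1) * (((n + 1 : ℕ) : ℝ) ^ (P + 1) - (n : ℝ) ^ (P + 1) - ((P + 1 : ℕ) : ℝ) * (n : ℝ) ^ P))
              = (n + 1) * ((q : ℝ) * (((n + 1 : ℕ) : ℝ) ^ (P + 1) - (n : ℝ) ^ (P + 1) - ((P + 1 : ℕ) : ℝ) * (n : ℝ) ^ P)) := by ring
            _ ≤ q * (2 ^ (P + 1) * (q : ℝ) ^ P) := mul_le_mul hnq' ih2 (by positivity) hq0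
        have h2 : (P : ℝ) + 1 ≤ 2 ^ (P + 1) := by
          have : P + 1 < 2 ^ (P + 1) := Nat.lt_two_pow_self
          exact_mod_cast this.le
        have h3 : (n : ℝ) ^ P ≤ (q : ℝ) ^ P := pow_le_pow_left₀ hn0 hnq P
        calc (q : ℝ) * ((n + 1) * (((n + 1 : ℕ) : ℝ) ^ (P + 1) - (n : ℝ) ^ (P + 1) - ((P + 1 : ℕ) : ℝ) * (n : ℝ) ^ P) + (P + 1) * (n : ℝ) ^ P)
            = (q : ℝ) * ((n + 1) * (((n + 1 : ℕ) : ℝ) ^ (P + 1) - (n : ℝ) ^ (P + 1) - ((P + 1 : ℕ) : ℝ) * (n : ℝ) ^ P)) +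
              q * ((P + 1) * (n : ℝ) ^ P) := by ring
          _ ≤ q * (2 ^ (P + 1) * (q : ℝ) ^ P) + q * (2 ^ (P + 1) * (q : ℝ) ^ P) := by gcongr
          _ = 2 ^ (P + 1 + 1) * (q : ℝ) ^ (P + 1) := by ring

/-- **The even moments.** -/
theorem fr_near (p : ℕ) : ∃ C : ℝ, 0 ≤ C ∧ ∀ p' ≤ p, ∀ (q : ℕ) (θ : ℝ), 1 ≤ q → 0 ≤ θ → θ ≤ 1 → 1 - θ ≤ 1 / q → ∀ n ≤ q,
    (q : ℝ) * |fr θ n (2 * p') - mu (2 * p') * (n : ℝ) ^ p'| ≤ C * (q : ℝ) ^ p' := by
  induction p with
  | zero =>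
    refine ⟨0, le_rfl, fun p' hp' q θ _ _ _ _ n _ => ?_⟩
    obtain rfl : p' = 0 := by omega
    rw [mul_zero, fr_zero, mu_zero]
    simp
  | succ p ih =>
    obtain ⟨C, hC0, hC⟩ := ih
    obtain ⟨K1, hK1⟩ : ∃ K1 : ℝ, K1 = ((2 * (p + 1)).choose 2 : ℝ) * (C + mu (2 * p)) := ⟨_, rfl⟩
    obtain ⟨K2, hK2⟩ : ∃ K2 : ℝ, K2 = ∑ i ∈ range p, ((2 * (p + 1)).choose (2 * (i + 2)) : ℝ) * (mu (2 * (p - (i + 1))) + C) := ⟨_, rfl⟩
    obtain ⟨K3, hK3⟩ : ∃ K3 : ℝ, K3 = mu (2 * (p + 1)) * 2 ^ (p + 1) := ⟨_, rfl⟩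
    have hK1' : 0 ≤ K1 := by rw [hK1]; positivity
    have hK2' : 0 ≤ K2 := by rw [hK2]; positivity
    have hK3' : 0 ≤ K3 := by rw [hK3]; positivity
    refine ⟨C + (K1 + K2 + K3), by positivity, fun p' hp' q θ hq hθ0 hθ1 hθ n hn => ?_⟩
    have hq0 : (0 : ℝ) < q := by exact_mod_cast hq
    rcases Nat.lt_or_ge p' (p + 1) with h | h
    · refine (hC p' (by omega) q θ hq hθ0 hθ1 hθ n hn).trans ?_
      refine mul_le_mul_of_nonneg_right ?_ (by positivity)
      linarith
    · obtain rfl : p' = p + 1 := by omega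
      -- induction on the number of the variables
      have key : ∀ n ≤ q, (q : ℝ) * |fr θ n (2 * (p + 1)) - mu (2 * (p + 1)) * (n : ℝ) ^ (p + 1)| ≤ (K1 + K2 + K3) * (n * (q : ℝ) ^ p) := by
        intro n
        induction n with
        | zero =>
          intro _
          unfold fr
          rw [if_neg (by omega)]
          simp
        | succ n ihn =>
          intro hn
          have ihn := ihn (by omega)
          have hnq : (n : ℝ) ≤ q := by exact_mod_cast (by omega : n ≤ q)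
          have hb : ∀ p' ≤ p, |fr θ n (2 * p')| ≤ (mu (2 * p') + C) * (q : ℝ) ^ p' := by
            intro p' hp'
            have h1 := hC p' hp' q θ hq hθ0 hθ1 hθ n (by omega)
            have h2 : |fr θ n (2 * p') - mu (2 * p') * (n : ℝ) ^ p'| ≤ C * (q : ℝ) ^ p' := by
              refine le_trans ?_ h1
              have : (1 : ℝ) ≤ q := by exact_mod_cast hq
              nlinarith [abs_nonneg (fr θ n (2 * p') - mu (2 * p') * (n : ℝ) ^ p')]
            have h3 : |(mu (2 * p') : ℝ) * (n : ℝ) ^ p'| ≤ mu (2 * p') * (q : ℝ) ^ p' := by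
              rw [abs_of_nonneg (by positivity)]
              gcongr
            have e : fr θ n (2 * p') = (fr θ n (2 * p') - mu (2 * p') * (n : ℝ) ^ p') + mu (2 * p') * (n : ℝ) ^ p' := by ring
            rw [e]
            refine (abs_add_le _ _).trans ?_
            linarith
          -- the terms
          obtain ⟨T2, hT2⟩ : ∃ T2 : ℝ, T2 = ∑ i ∈ range p, ((2 * (p + 1)).choose (2 * (i + 2)) : ℝ) * fr θ n (2 * (p - (i + 1))) := ⟨_, rfl⟩
          have hrec : fr θ (n + 1) (2 * (p + 1)) = fr θ n (2 * (p + 1)) +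
              θ * (((2 * (p + 1)).choose 2 : ℝ) * fr θ n (2 * p) + T2) := by
            rw [fr_even, sum_range_succ', hT2]
            congr 2
            rw [add_comm]
            congr 1
            refine sum_congr rfl fun i _ => ?_
            have e1 : p + 1 - (i + 1 + 1) = p - (i + 1) := by omega
            rw [e1]
          have hT2' : (q : ℝ) * |T2| ≤ K2 * (q : ℝ) ^ p := by
            rcases Nat.eq_zero_or_pos p with hp | hp
            · have : T2 = 0 := by rw [hT2, hp, range_zero, sum_empty]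
              rw [this, abs_zero, mul_zero]
              positivity
            · have h1 : |T2| ≤ K2 * (q : ℝ) ^ (p - 1) := by
                rw [hT2, hK2, sum_mul]
                refine (abs_sum_le_sum_abs _ _).trans (sum_le_sum fun i hi => ?_)
                have hi' := mem_range.1 hi
                rw [abs_mul, abs_of_nonneg (by positivity : (0 : ℝ) ≤ ((2 * (p + 1)).choose (2 * (i + 2)) : ℝ)), mul_assoc]
                refine mul_le_mul_of_nonneg_left ?_ (by positivity)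
                refine (hb (p - (i + 1)) (by omega)).trans ?_
                refine mul_le_mul_of_nonneg_left ?_ (by positivity)
                exact pow_le_pow_right₀ (by exact_mod_cast hq) (by omega)
              calc (q : ℝ) * |T2| ≤ q * (K2 * (q : ℝ) ^ (p - 1)) := by gcongr
                _ = K2 * (q : ℝ) ^ p := by
                    obtain ⟨p1, rfl⟩ : ∃ p1, p = p1 + 1 := ⟨p - 1, by omega⟩
                    rw [Nat.add_sub_cancel, pow_succ]
                    ring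
          have hA : (q : ℝ) * |θ * (((2 * (p + 1)).choose 2 : ℝ) * fr θ n (2 * p)) - mu (2 * (p + 1)) * ((p + 1 : ℕ) * (n : ℝ) ^ p)| ≤
              K1 * (q : ℝ) ^ p := by
            have e1 : (mu (2 * (p + 1)) : ℝ) * ((p + 1 : ℕ) * (n : ℝ) ^ p) = ((2 * (p + 1)).choose 2 : ℝ) * (mu (2 * p) * (n : ℝ) ^ p) := by
              rw [mu_succ]
              have h1 : (2 * (p + 1)).choose 2 = (p + 1) * (2 * p + 1) := by
                rw [Nat.choose_two_right]
                have : 2 * (p + 1) * (2 * (p + 1) - 1) = 2 * ((p + 1) * (2 * p + 1)) := by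
                  have : 2 * (p + 1) - 1 = 2 * p + 1 := by omega
                  rw [this]
                  ring
                rw [this, Nat.mul_div_cancel_left _ (by norm_num)]
              rw [h1]
              push_cast
              ring
            have h1 := hC p le_rfl q θ hq hθ0 hθ1 hθ n (by omega)
            have e2 : θ * (((2 * (p + 1)).choose 2 : ℝ) * fr θ n (2 * p)) - ((2 * (p + 1)).choose 2 : ℝ) * (mu (2 * p) * (n : ℝ) ^ p) =
                ((2 * (p + 1)).choose 2 : ℝ) * (θ * (fr θ n (2 * p) - mu (2 * p) * (n : ℝ) ^ p) - (1 - θ) * (mu (2 * p) * (n : ℝ) ^ p)) := by ring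
            rw [e1, e2, abs_mul, abs_of_nonneg (by positivity : (0 : ℝ) ≤ ((2 * (p + 1)).choose 2 : ℝ)), hK1]
            have h2 : |θ * (fr θ n (2 * p) - mu (2 * p) * (n : ℝ) ^ p) - (1 - θ) * (mu (2 * p) * (n : ℝ) ^ p)| ≤
                |fr θ n (2 * p) - mu (2 * p) * (n : ℝ) ^ p| + 1 / q * (mu (2 * p) * (q : ℝ) ^ p) := by
              refine (abs_sub _ _).trans ?_
              rw [abs_mul, abs_of_nonneg hθ0, abs_mul, abs_of_nonneg (by linarith : (0 : ℝ) ≤ 1 - θ),
                abs_of_nonneg (by positivity : (0 : ℝ) ≤ (mu (2 * p) : ℝ) * (n : ℝ) ^ p)]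
              refine add_le_add ?_ ?_
              · exact mul_le_of_le_one_left (abs_nonneg _) hθ1
              · gcongr
            calc (q : ℝ) * (((2 * (p + 1)).choose 2 : ℝ) * |θ * (fr θ n (2 * p) - mu (2 * p) * (n : ℝ) ^ p) - (1 - θ) * (mu (2 * p) * (n : ℝ) ^ p)|)
                ≤ (q : ℝ) * (((2 * (p + 1)).choose 2 : ℝ) * (|fr θ n (2 * p) - mu (2 * p) * (n : ℝ) ^ p| + 1 / q * (mu (2 * p) * (q : ℝ) ^ p))) := by
                  gcongr
              _ = ((2 * (p + 1)).choose 2 : ℝ) * ((q : ℝ) * |fr θ n (2 * p) - mu (2 * p) * (n : ℝ) ^ p| + mu (2 * p) * (q : ℝ) ^ p) := by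
                  field_simp
              _ ≤ ((2 * (p + 1)).choose 2 : ℝ) * (C * (q : ℝ) ^ p + mu (2 * p) * (q : ℝ) ^ p) := by gcongr
              _ = _ := by ring
          have hB := pow_step hn (p + 1)
          rw [Nat.add_sub_cancel] at hB
          have hB' : (q : ℝ) * |(mu (2 * (p + 1)) : ℝ) * (((n + 1 : ℕ) : ℝ) ^ (p + 1) - (n : ℝ) ^ (p + 1) - (p + 1 : ℕ) * (n : ℝ) ^ p)| ≤
              K3 * (q : ℝ) ^ p := by
            rw [abs_of_nonneg (mul_nonneg (by positivity) hB.1), hK3]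
            calc (q : ℝ) * ((mu (2 * (p + 1)) : ℝ) * (((n + 1 : ℕ) : ℝ) ^ (p + 1) - (n : ℝ) ^ (p + 1) - (p + 1 : ℕ) * (n : ℝ) ^ p))
                = (mu (2 * (p + 1)) : ℝ) * ((q : ℝ) * (((n + 1 : ℕ) : ℝ) ^ (p + 1) - (n : ℝ) ^ (p + 1) - (p + 1 : ℕ) * (n : ℝ) ^ p)) := by ring
              _ ≤ (mu (2 * (p + 1)) : ℝ) * (2 ^ (p + 1) * (q : ℝ) ^ p) := mul_le_mul_of_nonneg_left hB.2 (by positivity)
              _ = _ := by ring
          have e : fr θ (n + 1) (2 * (p + 1)) - mu (2 * (p + 1)) * ((n + 1 : ℕ) : ℝ) ^ (p + 1) =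
              (fr θ n (2 * (p + 1)) - mu (2 * (p + 1)) * (n : ℝ) ^ (p + 1)) +
              (θ * (((2 * (p + 1)).choose 2 : ℝ) * fr θ n (2 * p)) - mu (2 * (p + 1)) * ((p + 1 : ℕ) * (n : ℝ) ^ p)) +
              θ * T2 - (mu (2 * (p + 1)) : ℝ) * (((n + 1 : ℕ) : ℝ) ^ (p + 1) - (n : ℝ) ^ (p + 1) - (p + 1 : ℕ) * (n : ℝ) ^ p) := by
            rw [hrec]
            ring
          rw [e]
          have hθT : |θ * T2| ≤ |T2| := by
            rw [abs_mul, abs_of_nonneg hθ0]
            exact mul_le_of_le_one_left (abs_nonneg _) hθ1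
          calc (q : ℝ) * |(fr θ n (2 * (p + 1)) - mu (2 * (p + 1)) * (n : ℝ) ^ (p + 1)) +
              (θ * (((2 * (p + 1)).choose 2 : ℝ) * fr θ n (2 * p)) - mu (2 * (p + 1)) * ((p + 1 : ℕ) * (n : ℝ) ^ p)) +
              θ * T2 - (mu (2 * (p + 1)) : ℝ) * (((n + 1 : ℕ) : ℝ) ^ (p + 1) - (n : ℝ) ^ (p + 1) - (p + 1 : ℕ) * (n : ℝ) ^ p)|
              ≤ (q : ℝ) * (|fr θ n (2 * (p + 1)) - mu (2 * (p + 1)) * (n : ℝ) ^ (p + 1)| +
                |θ * (((2 * (p + 1)).choose 2 : ℝ) * fr θ n (2 * p)) - mu (2 * (p + 1)) * ((p + 1 : ℕ) * (n : ℝ) ^ p)| + |T2| +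
                |(mu (2 * (p + 1)) : ℝ) * (((n + 1 : ℕ) : ℝ) ^ (p + 1) - (n : ℝ) ^ (p + 1) - (p + 1 : ℕ) * (n : ℝ) ^ p)|) := by
                refine mul_le_mul_of_nonneg_left ?_ hq0.le
                refine (abs_sub _ _).trans (add_le_add ?_ le_rfl)
                refine (abs_add_le _ _).trans (add_le_add (abs_add_le _ _) hθT)
            _ ≤ (K1 + K2 + K3) * (n * (q : ℝ) ^ p) + K1 * (q : ℝ) ^ p + K2 * (q : ℝ) ^ p + K3 * (q : ℝ) ^ p := by
                rw [mul_add, mul_add, mul_add]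
                linarith
            _ = (K1 + K2 + K3) * ((n + 1 : ℕ) * (q : ℝ) ^ p) := by
                push_cast
                ring
      refine (key n hn).trans ?_
      have hnq : (n : ℝ) ≤ q := by exact_mod_cast hn
      calc (K1 + K2 + K3) * (n * (q : ℝ) ^ p) ≤ (K1 + K2 + K3) * (q * (q : ℝ) ^ p) := by gcongr
        _ = (K1 + K2 + K3) * (q : ℝ) ^ (p + 1) := by ring
        _ ≤ (C + (K1 + K2 + K3)) * (q : ℝ) ^ (p + 1) := by
            refine mul_le_mul_of_nonneg_right ?_ (by positivity)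
            linarith

/-- The moments of the sum of independent variables. -/
theorem av_pow {X : Type} [Fintype X] [Nonempty X] {ξ : X → ℝ} {θ : ℝ} (hξ : ∀ l, av (fun x => ξ x ^ l) = mm θ l) (n : ℕ) :
    ∀ h : ℕ, av (fun u : Fin n → X => (∑ i, ξ (u i)) ^ h) = fr θ n h := by
  induction n with
  | zero =>
    intro h
    unfold fr av
    simp only [univ_eq_empty, sum_empty, sum_const, card_univ, nsmul_eq_mul, Fintype.card_unique, Nat.cast_one, one_mul, div_one]
    exact zero_pow_eq h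
  | succ n ih =>
    intro h
    have h1 : av (fun u : Fin (n + 1) → X => (∑ i, ξ (u i)) ^ h) =
        av (fun p : X × (Fin n → X) => (ξ p.1 + ∑ i, ξ (p.2 i)) ^ h) := by
      unfold av
      have e1 : ∑ u : Fin (n + 1) → X, (∑ i, ξ (u i)) ^ h = ∑ p : X × (Fin n → X), (ξ p.1 + ∑ i, ξ (p.2 i)) ^ h := by
        rw [← (Fin.consEquiv (fun _ : Fin (n + 1) => X)).sum_comp]
        refine sum_congr rfl fun p _ => ?_
        rw [Fin.sum_univ_succ]
        rfl
      have e2 : Fintype.card (Fin (n + 1) → X) = Fintype.card (X × (Fin n → X)) :=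
        (Fintype.card_congr (Fin.consEquiv (fun _ : Fin (n + 1) => X))).symm
      rw [e1, e2]
    have h2 : ∀ p : X × (Fin n → X), (ξ p.1 + ∑ i, ξ (p.2 i)) ^ h =
        ∑ l ∈ range (h + 1), (h.choose l : ℝ) * (ξ p.1 ^ l * (∑ i, ξ (p.2 i)) ^ (h - l)) := by
      intro p
      rw [add_pow]
      exact sum_congr rfl fun l _ => by ring
    have h3 : ∀ (f : X → ℝ) (g : (Fin n → X) → ℝ), av (fun p : X × (Fin n → X) => f p.1 * g p.2) = av f * av g := by
      intro f g
      unfold av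
      rw [Fintype.sum_prod_type, Fintype.card_prod]
      push_cast
      have : ∑ x, ∑ y, f x * g y = (∑ x, f x) * ∑ y, g y := (sum_mul_sum _ _ _ _).symm
      rw [this]
      rw [div_mul_div_comm]
    rw [h1]
    simp only [h2]
    rw [av_sum, fr]
    refine sum_congr rfl fun l _ => ?_
    rw [av_mul, h3 (fun x => ξ x ^ l) (fun u => (∑ i, ξ (u i)) ^ (h - l)), hξ, ih]
    ring

end Pool.Agent.V5helper57.Tat
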