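import Pool.Agent.V5helper57.Tat.Gau
import Pool.Agent.V5helper57.Hyp.Bad
import Pool.Agent.Q282.NF.Red

/-!
# The moments of the character sums of random polynomials
-/

set_option autoImplicit false

namespace Pool.Agent.V5helper57.Tat

open Finset Polynomial
open Pool.Agent.N647.NG (ch ch_abs sum_ch)
open Pool.Agent.V5helper57.Prd

theorem av_surj {A V : Type} [AddCommGroup A] [AddCommGroup V] [Fintype A] [Fintype V] (Φ : A →+ V)
    (hΦ : Function.Surjective Φ) (G : V → ℝ) : av (fun u => G (Φ u)) = av G := by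
  have h1 := Q282.NF.sum_surj Φ hΦ G
  have h2 : (0 : ℝ) < Fintype.card A := by exact_mod_cast Fintype.card_pos
  have h3 : (0 : ℝ) < Fintype.card V := by exact_mod_cast Fintype.card_pos
  unfold av
  rw [div_eq_div_iff h2.ne' h3.ne', h1, mul_comm]

theorem av_equiv {A B : Type} [Fintype A] [Fintype B] (e : A ≃ B) (G : B → ℝ) : av (fun a => G (e a)) = av G := by
  unfold av
  rw [e.sum_comp, Fintype.card_congr e]

/-- The monic polynomial of degree `d` with the coefficients `t`. -/
noncomputable def pol {R : Type} [CommRing R] {d : ℕ} (t : Fin d → R) : R[X] := X ^ d + ∑ j, C (t j) * X ^ (j : ℕ)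

theorem pol_map {R S : Type} [CommRing R] [CommRing S] (φ : R →+* S) {d : ℕ} (t : Fin d → R) :
    (pol t).map φ = pol (fun j => φ (t j)) := by
  unfold pol
  simp only [Polynomial.map_add, Polynomial.map_pow, map_X, Polynomial.map_sum, Polynomial.map_mul, map_C]

theorem pol_monic {R : Type} [CommRing R] [Nontrivial R] {d : ℕ} (t : Fin d → R) :
    (pol t).Monic ∧ (pol t).natDegree = d := by
  have h1 : degree (∑ j, C (t j) * X ^ (j : ℕ)) < (d : WithBot ℕ) := degree_sum_fin_lt t
  refine ⟨monic_X_pow_add h1, ?_⟩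
  apply natDegree_eq_of_degree_eq_some
  unfold pol
  rw [degree_add_eq_left_of_degree_lt, degree_X_pow]
  rw [degree_X_pow]
  exact h1

section
variable {F : Type} [Field F] [Fintype F] [DecidableEq F] {d : ℕ}

theorem eval_pol (t : Fin d → F) (x : F) : (pol t).eval x = x ^ d + ∑ j, t j * x ^ (j : ℕ) := by
  unfold pol
  simp only [eval_add, eval_pow, eval_X, eval_finset_sum, eval_mul, eval_C]

/-- The values at few points. -/
def evl (Y : Finset F) : (Fin d → F) →+ (Y → F) where
  toFun t x := ∑ j, t j * (x : F) ^ (j : ℕ)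
  map_zero' := by
    funext x
    simp
  map_add' s t := by
    funext x
    simp [add_mul, sum_add_distrib]

theorem evl_surj {Y : Finset F} (hY : Y.card ≤ d) : Function.Surjective (evl (d := d) Y) := by
  intro w
  obtain ⟨r, hr⟩ : ∃ r : F → F, r = fun x => if h : x ∈ Y then w ⟨x, h⟩ else 0 := ⟨_, rfl⟩
  obtain ⟨P, hP⟩ : ∃ P : F[X], P = Lagrange.interpolate Y id r := ⟨_, rfl⟩
  have hdeg : P.degree < Y.card := by
    rw [hP]
    exact Lagrange.degree_interpolate_lt r (Function.injective_id.injOn)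
  refine ⟨fun j => P.coeff j, ?_⟩
  funext ⟨x, hx⟩
  have h1 : P.eval x = w ⟨x, hx⟩ := by
    have := Lagrange.eval_interpolate_at_node r (Function.injective_id.injOn (s := (Y : Set F))) hx
    rw [hP]
    simp only [id] at this
    rw [this, hr]
    simp only
    rw [dif_pos hx]
  show ∑ j : Fin d, P.coeff j * x ^ (j : ℕ) = w ⟨x, hx⟩
  have hY0 : 0 < Y.card := card_pos.2 ⟨x, hx⟩
  have hnd : P.natDegree < d := by
    by_cases h0 : P = 0
    · rw [h0, natDegree_zero]
      omega
    · exact (natDegree_lt_iff_degree_lt h0).2 (hdeg.trans_le (by exact_mod_cast hY))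
  rw [← h1, eval_eq_sum_range' hnd, Fin.sum_univ_eq_sum_range (fun j => P.coeff j * x ^ j) d]

/-- **Independence of few values.** -/
theorem av_values {h : ℕ} (hh : h ≤ d) (y : Fin h → F) :
    av (fun t : Fin d → F => ∏ i, ch ((pol t).eval (y i))) = av (fun u : F → F => ∏ i, ch (u (y i))) := by
  obtain ⟨Y, hY⟩ : ∃ Y : Finset F, Y = univ.image y := ⟨_, rfl⟩
  have hYc : Y.card ≤ d := by
    rw [hY]
    exact (card_image_le.trans (by simp)).trans hh
  have hmem : ∀ i, y i ∈ Y := fun i => by rw [hY]; exact mem_image_of_mem _ (mem_univ _)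
  obtain ⟨Ψ, hΨ⟩ : ∃ Ψ : (Y → F) → ℝ, Ψ = fun w => ∏ i, ch (w ⟨y i, hmem i⟩) := ⟨_, rfl⟩
  have h1 : av (fun t : Fin d → F => ∏ i, ch ((pol t).eval (y i))) = av (fun w : Y → F => Ψ ((Equiv.addRight (fun x : Y => (x : F) ^ d)) w)) := by
    rw [← av_surj (evl (d := d) Y) (evl_surj hYc)]
    congr 1
    funext t
    rw [hΨ]
    refine prod_congr rfl fun i _ => ?_
    rw [eval_pol]
    congr 1
    exact add_comm _ _
  have h2 : av (fun u : F → F => ∏ i, ch (u (y i))) = av Ψ := by
    let ρ : (F → F) →+ (Y → F) :=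
      { toFun := fun u x => u x
        map_zero' := rfl
        map_add' := fun _ _ => rfl }
    have hρ : Function.Surjective ρ := by
      intro w
      refine ⟨fun x => if h : x ∈ Y then w ⟨x, h⟩ else 0, ?_⟩
      funext ⟨x, hx⟩
      show (if h : x ∈ Y then w ⟨x, h⟩ else 0) = w ⟨x, hx⟩
      rw [dif_pos hx]
    rw [← av_surj ρ hρ, hΨ]
    rfl
  rw [h1, h2]
  exact av_equiv _ Ψ

/-- The character sum. -/
noncomputable def Sm (t : Fin d → F) : ℝ := ∑ x : F, ch ((pol t).eval x)

theorem ch_pow (a : F) (l : ℕ) : ch a ^ l = if l = 0 then 1 else if Even l then (if a = 0 then 0 else 1) else ch a := by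
  rcases Nat.eq_zero_or_pos l with rfl | hl
  · simp
  · rw [if_neg hl.ne']
    have h3 : ch a = 0 ∧ a = 0 ∨ a ≠ 0 ∧ (ch a = 1 ∨ ch a = -1) := by
      unfold ch
      by_cases h : a = 0
      · left
        rw [h]
        simp
      · right
        refine ⟨h, ?_⟩
        rcases quadraticChar_dichotomy h with h1 | h1 <;> rw [h1] <;> simp
    rcases h3 with ⟨h4, h5⟩ | ⟨h4, h5⟩
    · rw [h4, zero_pow hl.ne', if_pos h5]
      split_ifs <;> rfl
    · rw [if_neg h4]
      rcases h5 with h5 | h5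
      · rw [h5, one_pow]
        split_ifs <;> rfl
      · rw [h5]
        split_ifs with h6
        · exact h6.neg_one_pow
        · exact (Nat.not_even_iff_odd.1 h6).neg_one_pow

theorem av_ch (h2 : ringChar F ≠ 2) (l : ℕ) : av (fun a : F => ch a ^ l) = mm (1 - 1 / (Fintype.card F : ℝ)) l := by
  have hq : (0 : ℝ) < Fintype.card F := by exact_mod_cast Fintype.card_pos
  unfold av mm
  simp only [ch_pow]
  split_ifs with h1 h3
  · rw [sum_const, card_univ, nsmul_eq_mul, mul_one, div_self hq.ne']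
  · have e : ∑ a : F, (if a = 0 then (0 : ℝ) else 1) = Fintype.card F - 1 := by
      have h4 : ∀ a : F, (if a = 0 then (0 : ℝ) else 1) = 1 - (if a = 0 then 1 else 0) := by
        intro a
        split_ifs <;> norm_num
      rw [sum_congr rfl fun a _ => h4 a, sum_sub_distrib, sum_ite_eq', if_pos (mem_univ _)]
      simp
    rw [e]
    field_simp
  · rw [sum_ch h2, zero_div]

/-- **The moments of the character sum** of order at most the degree. -/
theorem av_Sm (h2 : ringChar F ≠ 2) {h : ℕ} (hh : h ≤ d) :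
    av (fun t : Fin d → F => Sm t ^ h) = fr (1 - 1 / (Fintype.card F : ℝ)) (Fintype.card F) h := by
  have h1 : ∀ t : Fin d → F, Sm t ^ h = ∑ y : Fin h → F, ∏ i, ch ((pol t).eval (y i)) := by
    intro t
    unfold Sm
    rw [Fintype.sum_pow]
  have h3 : ∀ u : F → F, (∑ x, ch (u x)) ^ h = ∑ y : Fin h → F, ∏ i, ch (u (y i)) := by
    intro u
    rw [Fintype.sum_pow]
  have h4 : av (fun t : Fin d → F => Sm t ^ h) = av (fun u : F → F => (∑ x, ch (u x)) ^ h) := by
    simp only [h1, h3]
    rw [av_sum, av_sum]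
    exact sum_congr rfl fun y _ => av_values hh y
  have h5 : av (fun u : F → F => (∑ x, ch (u x)) ^ h) = av (fun u : Fin (Fintype.card F) → F => (∑ i, ch (u i)) ^ h) := by
    rw [← av_equiv (Equiv.arrowCongr (Fintype.equivFin F) (Equiv.refl F))]
    congr 1
    funext u
    congr 1
    rw [← (Fintype.equivFin F).sum_comp]
    refine sum_congr rfl fun x _ => ?_
    simp [Equiv.arrowCongr]
  rw [h4, h5, av_pow (av_ch h2)]

/-- The normalised moments. -/
theorem moments (h : ℕ) : ∃ C : ℝ, 0 ≤ C ∧ ∀ (F : Type) [Field F] [Fintype F] [DecidableEq F], ringChar F ≠ 2 →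
    ∀ h' ≤ h, ∀ d : ℕ, h' ≤ d → |av (fun t : Fin d → F => (-Sm t / √(Fintype.card F)) ^ h') - mu h'| ≤ C / √(Fintype.card F) := by
  obtain ⟨C, hC0, hC⟩ := fr_near h
  refine ⟨C, hC0, fun F _ _ _ h2 h' hh' d hd => ?_⟩
  have hq : (0 : ℝ) < Fintype.card F := by exact_mod_cast Fintype.card_pos
  have hq1 : (1 : ℝ) ≤ Fintype.card F := by exact_mod_cast Fintype.card_pos
  obtain ⟨s, hs⟩ : ∃ s, s = √(Fintype.card F : ℝ) := ⟨_, rfl⟩
  have hs0 : 0 < s := by rw [hs]; exact Real.sqrt_pos.2 hq
  have hss : s * s = Fintype.card F := by rw [hs]; exact Real.mul_self_sqrt hq.le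
  have hs1 : 1 ≤ s := by nlinarith
  have e : (fun t : Fin d → F => (-Sm t / √(Fintype.card F)) ^ h') = fun t => (-1 / s) ^ h' * Sm t ^ h' := by
    funext t
    rw [← hs, ← mul_pow]
    congr 1
    ring
  rw [e, av_mul, av_Sm h2 hd, ← hs]
  by_cases hev : Even h'
  · obtain ⟨p, hp⟩ := hev
    have hp' : h' = 2 * p := by omega
    subst hp'
    have h3 := hC p (by omega) (Fintype.card F) (1 - 1 / (Fintype.card F : ℝ)) Fintype.card_pos (by
      rw [sub_nonneg, div_le_one hq]
      exact hq1) (by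
      have : 0 ≤ 1 / (Fintype.card F : ℝ) := by positivity
      linarith) (by simp) (Fintype.card F) le_rfl
    obtain ⟨q, hqq⟩ : ∃ q : ℝ, q = Fintype.card F := ⟨_, rfl⟩
    obtain ⟨f, hf⟩ : ∃ f, f = fr (1 - 1 / (Fintype.card F : ℝ)) (Fintype.card F) (2 * p) := ⟨_, rfl⟩
    rw [← hf, ← hqq] at h3
    rw [← hqq] at hss hq hq1
    rw [← hf]
    have e2 : (-1 / s) ^ (2 * p) = 1 / q ^ p := by
      rw [← hss, pow_mul, div_pow, div_pow]
      norm_num
      rw [sq]
    have e3 : 1 / q ^ p * f - (mu (2 * p) : ℝ) = (f - mu (2 * p) * q ^ p) / q ^ p := by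
      field_simp
    rw [e2, e3, abs_div, abs_of_pos (by positivity : 0 < q ^ p), div_le_div_iff₀ (by positivity) hs0]
    calc |f - mu (2 * p) * q ^ p| * s ≤ |f - mu (2 * p) * q ^ p| * q := by
          refine mul_le_mul_of_nonneg_left ?_ (abs_nonneg _)
          nlinarith
      _ = q * |f - mu (2 * p) * q ^ p| := mul_comm _ _
      _ ≤ C * q ^ p := h3
  · rw [fr_odd _ _ _ hev, mu_odd hev, mul_zero, Nat.cast_zero, sub_zero, abs_zero]
    positivity

/-- Singular polynomials are rare. -/
theorem bad_le (hd : 1 ≤ d) (hch : d < ringChar F) (B : (Fin d → F) → Prop) [DecidablePred B]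
    (hB : ∀ t, B t → ¬ Squarefree (pol t)) : av (fun t => if B t then (1 : ℝ) else 0) ≤ d / Fintype.card F := by
  classical
  have hq : (0 : ℝ) < Fintype.card F := by exact_mod_cast Fintype.card_pos
  obtain ⟨N, rfl⟩ : ∃ N, d = N + 1 := ⟨d - 1, by omega⟩
  have h0 : ((N + 1 : ℕ) : F) ≠ ((0 : ℕ) : F) := by
    rw [Nat.cast_zero]
    intro h
    have h1 := (ringChar.spec F (N + 1)).1 h
    have := Nat.le_of_dvd (by omega) h1
    omega
  -- the first coefficient varies
  have h1 : ∀ u : Fin N → F, ∑ s : F, (if B (Fin.cons s u) then (1 : ℝ) else 0) ≤ N := by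
    intro u
    have h2 := Pool.Agent.V5helper57.Hyp.pencil (f := pol (Fin.cons 0 u)) (A := (1 : F[X])) (N := N) (r := 0) (pol_monic _).1 (pol_monic _).2
      monic_one natDegree_one separable_one h0 (fun s => B (Fin.cons s u)) (fun s hs => by
        have h3 := hB _ hs
        have e : pol (Fin.cons s u : Fin (N + 1) → F) = pol (Fin.cons 0 u) + C s * 1 := by
          unfold pol
          rw [Fin.sum_univ_succ, Fin.sum_univ_succ]
          simp
          ring
        rw [← e]
        exact h3)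
    rw [← sum_filter, sum_const, nsmul_eq_mul, mul_one]
    simpa using h2
  have h2 : ∑ t : Fin (N + 1) → F, (if B t then (1 : ℝ) else 0) = ∑ u : Fin N → F, ∑ s : F, (if B (Fin.cons s u) then (1 : ℝ) else 0) := by
    rw [← (Fin.consEquiv (fun _ : Fin (N + 1) => F)).sum_comp, Fintype.sum_prod_type, sum_comm]
    rfl
  unfold av
  rw [h2, div_le_div_iff₀ (by exact_mod_cast Fintype.card_pos) hq]
  have h3 : ∑ u : Fin N → F, ∑ s : F, (if B (Fin.cons s u) then (1 : ℝ) else 0) ≤ (Fintype.card F : ℝ) ^ N * N := by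
    refine (sum_le_sum fun u _ => h1 u).trans (le_of_eq ?_)
    rw [sum_const, card_univ, nsmul_eq_mul, Fintype.card_fun, Fintype.card_fin]
    push_cast
    rfl
  rw [Fintype.card_fun, Fintype.card_fin]
  push_cast
  calc (∑ u : Fin N → F, ∑ s : F, (if B (Fin.cons s u) then (1 : ℝ) else 0)) * Fintype.card F
      ≤ ((Fintype.card F : ℝ) ^ N * N) * Fintype.card F := by gcongr
    _ ≤ (N + 1) * (Fintype.card F : ℝ) ^ (N + 1) := by
        rw [pow_succ]
        have : 0 ≤ (Fintype.card F : ℝ) ^ N * Fintype.card F := by positivity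
        nlinarith

end

end Pool.Agent.V5helper57.Tat
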