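import Pool.Agent.V5helper57.Tat.Fac
import Pool.Agent.V5helper57.Hyp.Glob
import Pool.Agent.V5helper57.Zet.Prod

/-!
# The local data of products of random curves
-/

set_option autoImplicit false

namespace Pool.Agent.V5helper57.Tat

open Finset Polynomial NumberField IsDedekindDomain
open Pool.Agent.N647.NG (ch ch_abs sum_ch weil_odd)
open Pool.Agent.V5helper57.Prd
open Pool.Agent.V5helper57.Hyp (affN exists_ext affN_eq weil_ext res_surj res_ker res_card res_char two_iff)
open Pool.Agent.H921R2.TatePole (below deg nm nm_eq)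

/-- The number of the parameters. -/
abbrev dm {n : ℕ} (g : Fin n → ℕ) : ℕ := ∑ i, (2 * g i + 1)

/-- The parameters of the `i`-th curve. -/
def blk {R : Type} {n : ℕ} {g : Fin n → ℕ} (t : Fin (dm g) → R) (i : Fin n) : Fin (2 * g i + 1) → R :=
  fun j => t (finSigmaFinEquiv ⟨i, j⟩)

/-- The index of a parameter. -/
def ixe {n : ℕ} (g : Fin n → ℕ) : (Σ i : Fin n, Fin (2 * g i + 1)) ≃ Fin (dm g) := finSigmaFinEquiv

/-- The blocks are independent. -/
def blkE (R : Type) {n : ℕ} (g : Fin n → ℕ) : (Fin (dm g) → R) ≃ (∀ i : Fin n, Fin (2 * g i + 1) → R) :=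
  (Equiv.arrowCongr (ixe g).symm (Equiv.refl R)).trans (Equiv.piCurry (fun (_ : Fin n) _ => R))

theorem blkE_apply {R : Type} {n : ℕ} {g : Fin n → ℕ} (t : Fin (dm g) → R) (i : Fin n) : blkE R g t i = blk t i := rfl

/-- The trace on the first cohomology. -/
noncomputable def tr (F : Type) [Field F] (f : F[X]) (m : ℕ) : ℝ := (Nat.card F : ℝ) ^ m - affN F f m

/-- The polynomial of the traces on the cohomology of the product. -/
noncomputable def PP (F : Type) [Field F] {n : ℕ} (f : Fin n → F[X]) (e : Fin n → ℕ) (m : ℕ) : ℝ[X] :=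
  ∏ i, (1 + C (tr F (f i) m) * X + C ((Nat.card F : ℝ) ^ m) * X ^ 2) ^ e i

theorem scal {n : ℕ} (a : Fin n → ℝ) {c : ℝ} (hc : c ≠ 0) (e : Fin n → ℕ) (l : ℕ) :
    (∏ i, (1 + C (a i) * X + C (c ^ 2) * X ^ 2) ^ e i).coeff l = c ^ l * (∏ i, QQ (a i / c) (e i)).coeff l := by
  have h1 : ∏ i, (1 + C (a i) * X + C (c ^ 2) * X ^ 2) ^ e i = (∏ i, QQ (a i / c) (e i)).comp (C c * X) := by
    rw [Polynomial.prod_comp]
    refine prod_congr rfl fun i _ => ?_
    unfold QQ
    rw [pow_comp, add_comp, add_comp, one_comp, mul_comp, C_comp, X_comp, pow_comp, X_comp]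
    congr 1
    rw [← mul_assoc, ← C_mul, div_mul_cancel₀ _ hc, mul_pow, C_pow]
  rw [h1, comp_C_mul_X_coeff, mul_comm]

section
variable {F : Type} [Field F] [Fintype F] [DecidableEq F]

theorem tr_one (h2 : ringChar F ≠ 2) {d : ℕ} (t : Fin d → F) : tr F (pol t) 1 = - Sm t := by
  have h4 := affN_eq (F := F) (E := F) h2 (pol t) (m := 1) (by rw [pow_one])
  unfold tr Sm
  rw [h4, Nat.card_eq_fintype_card]
  simp only [coe_aeval_eq_eval]
  ring

theorem tr_le (h2 : ringChar F ≠ 2) {g : ℕ} {f : F[X]} (hf : f.Monic) (hd : f.natDegree = 2 * g + 1) {m : ℕ} (hm : 1 ≤ m) :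
    |tr F f m| ≤ 2 * g * √(Fintype.card F) ^ m := by
  obtain ⟨E, _, _, _, _, hcard⟩ := exists_ext (F := F) m hm
  have h1 := affN_eq (E := E) h2 f hcard
  have h3 := weil_ext (E := E) h2 hf hd hcard
  unfold tr
  rw [h1, Nat.card_eq_fintype_card, sub_add_cancel_left, abs_neg]
  exact h3

/-- The coefficients of the polynomial of the traces. -/
theorem PP_coeff {n : ℕ} (f : Fin n → F[X]) (e : Fin n → ℕ) (m l : ℕ) :
    (PP F f e m).coeff l = √(Fintype.card F) ^ (m * l) * (∏ i, QQ (tr F (f i) m / √(Fintype.card F) ^ m) (e i)).coeff l := by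
  have hq0 : (0 : ℝ) < Fintype.card F := by exact_mod_cast Fintype.card_pos
  have hs0 : 0 < √(Fintype.card F : ℝ) := Real.sqrt_pos.2 hq0
  have h1 := scal (fun i => tr F (f i) m) (c := √(Fintype.card F) ^ m) (by positivity) e l
  have h2 : (√(Fintype.card F : ℝ) ^ m) ^ 2 = (Nat.card F : ℝ) ^ m := by
    rw [← pow_mul, mul_comm m 2, pow_mul, Real.sq_sqrt hq0.le, Nat.card_eq_fintype_card]
  rw [h2] at h1
  unfold PP
  rw [h1, ← pow_mul]

end

/-- The bound of the coefficients of the product of the normalised polynomials. -/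
noncomputable def B0 {n : ℕ} (k : ℕ) (g e : Fin n → ℕ) : ℝ := ((k + 1) * ((k + 1) * (1 + 2 * ∑ i, (g i : ℝ))) ^ (∑ i, e i)) ^ n

theorem B0_pos {n : ℕ} (k : ℕ) (g e : Fin n → ℕ) : 0 < B0 k g e := by
  unfold B0
  have : (0 : ℝ) ≤ ∑ i, (g i : ℝ) := sum_nonneg fun _ _ => Nat.cast_nonneg _
  positivity

theorem prod_QQ_le {n : ℕ} (k : ℕ) (g e : Fin n → ℕ) {x : Fin n → ℝ} (hx : ∀ i, |x i| ≤ 2 * g i) :
    nrm k (∏ i, QQ (x i) (e i)) (B0 k g e) := by
  classical
  have hG : ∀ i, (g i : ℝ) ≤ ∑ i, (g i : ℝ) := fun i =>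
    single_le_sum (f := fun i => (g i : ℝ)) (fun _ _ => Nat.cast_nonneg _) (mem_univ i)
  have hG0 : (0 : ℝ) ≤ ∑ i, (g i : ℝ) := sum_nonneg fun _ _ => Nat.cast_nonneg _
  have h1 := nrm.prod (k := k) (P := fun i => QQ (x i) (e i)) (A := ((k + 1) * (1 + 2 * ∑ i, (g i : ℝ))) ^ (∑ i, e i)) univ
    fun i _ => (QQ_nrm (x := x i) (A := 2 * ∑ i, (g i : ℝ)) ((hx i).trans (by linarith [hG i])) k (e i)).mono (by
      refine pow_le_pow_right₀ ?_ (single_le_sum (f := e) (fun _ _ => Nat.zero_le _) (mem_univ i))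
      have : (0 : ℝ) ≤ k := Nat.cast_nonneg k
      nlinarith)
  rw [card_univ, Fintype.card_fin] at h1
  exact h1

/-- The bound of the coefficients of the mean values. -/
noncomputable def R0 {n : ℕ} (k : ℕ) (e : Fin n → ℕ) : ℝ := ∑ l ∈ range (k + 1), |(∏ i, gz (e i)).coeff l|

theorem R0_le {n : ℕ} {k : ℕ} (e : Fin n → ℕ) {l : ℕ} (hl : l ≤ k) : |(∏ i, gz (e i)).coeff l| ≤ R0 k e :=
  single_le_sum (f := fun l => |(∏ i, gz (e i)).coeff l|) (fun _ _ => abs_nonneg _) (mem_range.2 (by omega))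

theorem R0_nonneg {n : ℕ} (k : ℕ) (e : Fin n → ℕ) : 0 ≤ R0 k e := sum_nonneg fun _ _ => abs_nonneg _

/-- The normalised trace. -/
noncomputable def tau {F : Type} [Field F] {n : ℕ} (f : Fin n → F[X]) (e : Fin n → ℕ) (l : ℕ) : ℝ :=
  (∏ i, QQ (tr F (f i) 1 / √(Nat.card F)) (e i)).coeff l

/-- The weighted sum. -/
noncomputable def ws {F : Type} [Field F] {n : ℕ} (f : Fin n → F[X]) (e : Fin n → ℕ) (k : ℕ) (w : ℕ → ℝ) : ℝ :=
  ∑ l ∈ range (k + 1), w l * (tau f e l - (∏ i, gz (e i)).coeff l)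

section
variable {F : Type} [Field F] [Fintype F] [DecidableEq F]

theorem tau_le (h2 : ringChar F ≠ 2) {n : ℕ} {g : Fin n → ℕ} {f : Fin n → F[X]} (hf : ∀ i, (f i).Monic ∧ (f i).natDegree = 2 * g i + 1)
    (e : Fin n → ℕ) {k l : ℕ} (hl : l ≤ k) : |tau f e l| ≤ B0 k g e := by
  have hq0 : (0 : ℝ) < Fintype.card F := by exact_mod_cast Fintype.card_pos
  have hs0 : 0 < √(Fintype.card F : ℝ) := Real.sqrt_pos.2 hq0
  unfold tau
  refine prod_QQ_le k g e (fun i => ?_) l hl
  have h1 := tr_le h2 (hf i).1 (hf i).2 le_rfl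
  rw [pow_one] at h1
  rw [Nat.card_eq_fintype_card, abs_div, abs_of_pos hs0, div_le_iff₀ hs0]
  exact h1

theorem ws_le (h2 : ringChar F ≠ 2) {n : ℕ} {g : Fin n → ℕ} {f : Fin n → F[X]} (hf : ∀ i, (f i).Monic ∧ (f i).natDegree = 2 * g i + 1)
    (e : Fin n → ℕ) (k : ℕ) {w : ℕ → ℝ} {B : ℝ} (hw : ∀ l, |w l| ≤ B) : |ws f e k w| ≤ (k + 1) * (B * (B0 k g e + R0 k e)) := by
  have hB : 0 ≤ B := (abs_nonneg _).trans (hw 0)
  unfold ws
  refine (abs_sum_le_sum_abs _ _).trans ?_
  have h1 : ∀ l ∈ range (k + 1), |w l * (tau f e l - (∏ i, gz (e i)).coeff l)| ≤ B * (B0 k g e + R0 k e) := by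
    intro l hl
    have hl' : l ≤ k := by have := mem_range.1 hl; omega
    rw [abs_mul]
    refine mul_le_mul (hw l) ?_ (abs_nonneg _) hB
    exact (abs_sub _ _).trans (add_le_add (tau_le h2 hf e hl') (R0_le e hl'))
  refine (sum_le_sum h1).trans (le_of_eq ?_)
  rw [sum_const, card_range, nsmul_eq_mul]
  push_cast
  rfl

end

theorem bad_mean {n : ℕ} (g : Fin n → ℕ) {F : Type} [Field F] [Fintype F] [DecidableEq F] (hch : ∀ i, 2 * g i + 1 < ringChar F)
    (i : Fin n) [DecidablePred fun x : Fin (dm g) → F => ¬ Squarefree (pol (blk x i))] :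
    av (fun x : Fin (dm g) → F => if ¬ Squarefree (pol (blk x i)) then (1 : ℝ) else 0) ≤ (2 * g i + 1 : ℕ) / Fintype.card F := by
  classical
  have h1 := av_equiv (blkE F g) (fun u : ∀ i : Fin n, Fin (2 * g i + 1) → F => ∏ j ∈ {i},
    (fun (j : Fin n) (v : Fin (2 * g j + 1) → F) => if ¬ Squarefree (pol v) then (1 : ℝ) else 0) j (u j))
  have h2 := av_subset (U := fun i : Fin n => Fin (2 * g i + 1) → F) {i} (fun (j : Fin n) (v : Fin (2 * g j + 1) → F) =>
    if ¬ Squarefree (pol v) then (1 : ℝ) else 0)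
  rw [h2] at h1
  simp only [prod_singleton] at h1
  have e1 : av (fun x : Fin (dm g) → F => if ¬ Squarefree (pol (blk x i)) then (1 : ℝ) else 0) =
      av (fun v : Fin (2 * g i + 1) → F => if ¬ Squarefree (pol v) then (1 : ℝ) else 0) := by
    rw [← h1]
    congr 1
    funext x
    have : blkE F g x i = blk x i := rfl
    rw [this]
    congr
  rw [e1]
  exact bad_le (by omega) (hch i) (fun v : Fin (2 * g i + 1) → F => ¬ Squarefree (pol v)) fun _ h => h

open Classical in
/-- **The mean of the weighted sum.** -/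
theorem ws_mean {n : ℕ} (g e : Fin n → ℕ) (k : ℕ) (hgk : ∀ i, min (e i) k ≤ 2 * g i + 1) (B : ℝ) (hB : 0 ≤ B) :
    ∃ C : ℝ, 0 ≤ C ∧ ∀ (F : Type) [Field F] [Fintype F], ringChar F ≠ 2 → (∀ i, 2 * g i + 1 < ringChar F) →
      ∀ w : ℕ → ℝ, (∀ l, |w l| ≤ B) →
      |av (fun x : Fin (dm g) → F => if ∀ i, Squarefree (pol (blk x i)) then
        √(Fintype.card F) * ws (fun i => pol (blk x i)) e k w else 0)| ≤ C := by
  obtain ⟨C1, hC1, h1⟩ := moments k
  obtain ⟨C2, hC2, h2⟩ := product_near e k (2 * ∑ i, (g i : ℝ))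
  obtain ⟨D, hD⟩ : ∃ D : ℝ, D = ∑ i, (((2 * g i + 1 : ℕ)) : ℝ) := ⟨_, rfl⟩
  have hD0 : 0 ≤ D := by rw [hD]; exact sum_nonneg fun _ _ => Nat.cast_nonneg _
  obtain ⟨W, hW⟩ : ∃ W : ℝ, W = (k + 1) * (B * (B0 k g e + R0 k e)) := ⟨_, rfl⟩
  have hW0 : 0 ≤ W := by
    have h3 := B0_pos k g e
    have h4 := R0_nonneg k e
    rw [hW]
    positivity
  have hG : ∀ i, (g i : ℝ) ≤ ∑ i, (g i : ℝ) := fun i =>
    single_le_sum (f := fun i => (g i : ℝ)) (fun _ _ => Nat.cast_nonneg _) (mem_univ i)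
  refine ⟨(k + 1) * (B * (C2 * C1)) + W * D, by positivity, fun F _ _ hF hch w hw => ?_⟩
  have hq0 : (0 : ℝ) < Fintype.card F := by exact_mod_cast Fintype.card_pos
  obtain ⟨s, hs⟩ : ∃ s, s = √(Fintype.card F : ℝ) := ⟨_, rfl⟩
  have hs0 : 0 < s := by rw [hs]; exact Real.sqrt_pos.2 hq0
  have hss : s * s = Fintype.card F := by rw [hs]; exact Real.mul_self_sqrt hq0.le
  have hs1 : 1 ≤ s := by
    have : (1 : ℝ) ≤ Fintype.card F := by exact_mod_cast Fintype.card_pos
    nlinarith
  -- the normalised traces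
  obtain ⟨x, hx⟩ : ∃ x : ∀ i : Fin n, (Fin (2 * g i + 1) → F) → ℝ, x = fun i u => -Sm u / √(Fintype.card F) := ⟨_, rfl⟩
  have htr : ∀ (i : Fin n) (u : Fin (2 * g i + 1) → F), tr F (pol u) 1 / √(Nat.card F) = x i u := by
    intro i u
    rw [hx, tr_one hF, Nat.card_eq_fintype_card]
  have hxb : ∀ i u, |x i u| ≤ 2 * ∑ i, (g i : ℝ) := by
    intro i u
    have h3 := tr_le hF (g := g i) (pol_monic u).1 (pol_monic u).2 le_rfl
    rw [pow_one, ← hs] at h3
    rw [← htr, Nat.card_eq_fintype_card, ← hs, abs_div, abs_of_pos hs0, div_le_iff₀ hs0]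
    refine h3.trans ?_
    have := hG i
    gcongr
  have hm : ∀ i h, h ≤ e i → h ≤ k → |av (fun u => x i u ^ h) - mu h| ≤ C1 / s := by
    intro i h he hk
    rw [hx, hs]
    exact h1 F hF h hk (2 * g i + 1) (by have := hgk i; omega)
  have h3 := h2 (fun i => Fin (2 * g i + 1) → F) x (C1 / s) hxb hm
  have h4 : ∀ l ≤ k, |av (fun y : Fin (dm g) → F => tau (fun i => pol (blk y i)) e l) - (∏ i, gz (e i)).coeff l| ≤ C2 * (C1 / s) := by
    intro l hl
    have h5 := h3 l hl
    have h6 := av_equiv (blkE F g) (fun t : ∀ i : Fin n, Fin (2 * g i + 1) → F => (∏ i, QQ (x i (t i)) (e i)).coeff l)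
    rw [← h6] at h5
    have e1 : (fun y : Fin (dm g) → F => tau (fun i => pol (blk y i)) e l) =
        fun a => (∏ i, QQ (x i ((blkE F g) a i)) (e i)).coeff l := by
      funext y
      unfold tau
      congr 1
      refine prod_congr rfl fun i _ => ?_
      rw [htr]
      rfl
    rw [e1]
    exact h5
  -- the sum over all members
  have h5 : |av (fun y : Fin (dm g) → F => s * ws (fun i => pol (blk y i)) e k w)| ≤ (k + 1) * (B * (C2 * C1)) := by
    rw [av_mul]
    have e1 : av (fun y : Fin (dm g) → F => ws (fun i => pol (blk y i)) e k w) =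
        ∑ l ∈ range (k + 1), w l * (av (fun y : Fin (dm g) → F => tau (fun i => pol (blk y i)) e l) - (∏ i, gz (e i)).coeff l) := by
      unfold ws
      rw [av_sum]
      refine sum_congr rfl fun l _ => ?_
      rw [av_mul, av_sub, av_const]
    rw [e1, abs_mul, abs_of_pos hs0]
    have h6 : |∑ l ∈ range (k + 1), w l * (av (fun y : Fin (dm g) → F => tau (fun i => pol (blk y i)) e l) - (∏ i, gz (e i)).coeff l)| ≤
        (k + 1) * (B * (C2 * (C1 / s))) := by
      refine (abs_sum_le_sum_abs _ _).trans ?_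
      have h7 : ∀ l ∈ range (k + 1), |w l * (av (fun y : Fin (dm g) → F => tau (fun i => pol (blk y i)) e l) - (∏ i, gz (e i)).coeff l)| ≤
          B * (C2 * (C1 / s)) := by
        intro l hl
        rw [abs_mul]
        exact mul_le_mul (hw l) (h4 l (by have := mem_range.1 hl; omega)) (abs_nonneg _) hB
      refine (sum_le_sum h7).trans (le_of_eq ?_)
      rw [sum_const, card_range, nsmul_eq_mul]
      push_cast
      rfl
    calc s * _ ≤ s * ((k + 1) * (B * (C2 * (C1 / s)))) := mul_le_mul_of_nonneg_left h6 hs0.le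
      _ = (k + 1) * (B * (C2 * C1)) := by field_simp
  -- the singular members
  have h6 : av (fun y : Fin (dm g) → F => if ∀ i, Squarefree (pol (blk y i)) then (0 : ℝ) else 1) ≤ D / Fintype.card F := by
    have h7 : av (fun y : Fin (dm g) → F => if ∀ i, Squarefree (pol (blk y i)) then (0 : ℝ) else 1) ≤
        av (fun y : Fin (dm g) → F => ∑ i, if ¬ Squarefree (pol (blk y i)) then (1 : ℝ) else 0) := by
      refine av_mono fun y => ?_
      split_ifs with h
      · exact sum_nonneg fun i _ => by split_ifs <;> norm_num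
      · push Not at h
        obtain ⟨i, hi⟩ := h
        calc (1 : ℝ) = if ¬ Squarefree (pol (blk y i)) then (1 : ℝ) else 0 := by rw [if_pos hi]
          _ ≤ _ := single_le_sum (f := fun i => if ¬ Squarefree (pol (blk y i)) then (1 : ℝ) else 0) (fun i _ => by
              split_ifs <;> norm_num) (mem_univ i)
    refine h7.trans ?_
    rw [av_sum, hD, sum_div]
    exact sum_le_sum fun i _ => bad_mean g hch i
  have h7 : |av (fun y : Fin (dm g) → F => if ∀ i, Squarefree (pol (blk y i)) then s * ws (fun i => pol (blk y i)) e k w else 0) -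
      av (fun y : Fin (dm g) → F => s * ws (fun i => pol (blk y i)) e k w)| ≤ W * D := by
    rw [← av_sub]
    refine (av_abs _).trans ?_
    have h8 : av (fun y : Fin (dm g) → F => |(if ∀ i, Squarefree (pol (blk y i)) then s * ws (fun i => pol (blk y i)) e k w else 0) -
        s * ws (fun i => pol (blk y i)) e k w|) ≤
        av (fun y : Fin (dm g) → F => (s * W) * (if ∀ i, Squarefree (pol (blk y i)) then (0 : ℝ) else 1)) := by
      refine av_mono fun y => ?_
      split_ifs with h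
      · rw [sub_self, abs_zero, mul_zero]
      · rw [zero_sub, abs_neg, mul_one, abs_mul, abs_of_pos hs0, hW]
        exact mul_le_mul_of_nonneg_left (ws_le hF (fun i => pol_monic (blk y i)) e k hw) hs0.le
    refine h8.trans ?_
    rw [av_mul]
    calc s * W * _ ≤ s * W * (D / Fintype.card F) := mul_le_mul_of_nonneg_left h6 (by positivity)
      _ = W * D / s := by
          rw [← hss]
          field_simp
      _ ≤ W * D := div_le_self (by positivity) hs1
  rw [← hs]
  rw [abs_le] at h5 h7 ⊢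
  constructor <;> linarith [h5.1, h5.2, h7.1, h7.2]

section
variable {K : Type} [Field K] [NumberField K]

/-- `v` does not divide `2`, and the polynomials are squarefree modulo `v`. -/
def Gd {n : ℕ} (f : Fin n → (𝓞 K)[X]) (v : HeightOneSpectrum (𝓞 K)) : Prop :=
  (2 : 𝓞 K) ∉ v.asIdeal ∧ ∀ i, Squarefree ((f i).map (algebraMap (𝓞 K) v.asIdeal.ResidueField))

open Classical in
/-- The local data. -/
noncomputable def aw {n : ℕ} (e : Fin n → ℕ) (k : ℕ) (w : HeightOneSpectrum (𝓞 K) → ℕ → ℝ) (f : Fin n → (𝓞 K)[X])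
    (v : HeightOneSpectrum (𝓞 K)) : ℝ :=
  if Gd f v then √(Ideal.absNorm v.asIdeal) * ws (fun i => (f i).map (algebraMap (𝓞 K) v.asIdeal.ResidueField)) e k (w v) else 0

/-- The curves. -/
noncomputable def crvs {n : ℕ} {g : Fin n → ℕ} (t : Fin (dm g) → 𝓞 K) (i : Fin n) : (𝓞 K)[X] := pol (blk t i)

theorem crvs_map {n : ℕ} {g : Fin n → ℕ} (t : Fin (dm g) → 𝓞 K) (i : Fin n) {S : Type} [CommRing S] (φ : 𝓞 K →+* S) :
    (crvs t i).map φ = pol (blk (fun j => φ (t j)) i) := by
  unfold crvs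
  rw [pol_map]
  rfl

/-- **The local data are admissible.** -/
theorem loc_aw {n : ℕ} (g e : Fin n → ℕ) (k : ℕ) (hgk : ∀ i, min (e i) k ≤ 2 * g i + 1) {B : ℝ} (hB : 0 ≤ B) :
    ∃ A C : ℝ, ∀ w : HeightOneSpectrum (𝓞 K) → ℕ → ℝ, (∀ v l, |w v l| ≤ B) →
      Zet.Loc K (dm g) (fun v t => aw e k w (crvs t) v) A C (dm g + 3) := by
  classical
  obtain ⟨C, hC0, hC⟩ := ws_mean g e k hgk B hB
  have h3 := B0_pos k g e
  have h4 := R0_nonneg k e
  refine ⟨(k + 1) * (B * (B0 k g e + R0 k e)), C, fun w hw => ⟨by positivity, hC0, fun v t => ?_, fun v => ?_⟩⟩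
  · have hfin : Finite v.asIdeal.ResidueField := Nat.finite_of_card_ne_zero (by rw [res_card]; exact (Q282.NF.nm_pos v).ne')
    let _ : Fintype v.asIdeal.ResidueField := Fintype.ofFinite _
    unfold aw
    split_ifs with h
    · rw [abs_mul, abs_of_nonneg (Real.sqrt_nonneg _), mul_comm]
      refine mul_le_mul_of_nonneg_right ?_ (Real.sqrt_nonneg _)
      refine ws_le ((two_iff v).1 h.1) (fun i => ?_) e k (hw v)
      rw [crvs_map]
      exact pol_monic _
    · rw [abs_zero]
      positivity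
  · have hfin : Finite v.asIdeal.ResidueField := Nat.finite_of_card_ne_zero (by rw [res_card]; exact (Q282.NF.nm_pos v).ne')
    let _ : Fintype v.asIdeal.ResidueField := Fintype.ofFinite _
    have hcard : Fintype.card v.asIdeal.ResidueField = Ideal.absNorm v.asIdeal := by rw [← Nat.card_eq_fintype_card, res_card]
    have hch : ringChar v.asIdeal.ResidueField = (below v : ℕ) := ringChar.eq_iff.2 (res_char v)
    refine ⟨v.asIdeal.ResidueField, inferInstance, inferInstance, algebraMap (𝓞 K) v.asIdeal.ResidueField,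
      fun x => if ringChar v.asIdeal.ResidueField ≠ 2 then (if ∀ i, Squarefree (pol (blk x i)) then
        √(Fintype.card v.asIdeal.ResidueField) * ws (fun i => pol (blk x i)) e k (w v) else 0) else 0,
      res_surj v, res_char v, fun t => ?_, fun hp => ?_⟩
    · unfold aw Gd
      simp only [crvs_map, two_iff, hcard]
      by_cases h2 : ringChar v.asIdeal.ResidueField ≠ 2
      · rw [if_pos h2]
        by_cases h5 : ∀ i, Squarefree (pol (blk (fun j => (algebraMap (𝓞 K) v.asIdeal.ResidueField) (t j)) i))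
        · rw [if_pos h5, if_pos ⟨h2, h5⟩]
        · rw [if_neg h5, if_neg (fun h => h5 h.2)]
      · rw [if_neg h2, if_neg (fun h => h2 h.1)]
    · have h2 : ringChar v.asIdeal.ResidueField ≠ 2 := by rw [hch]; omega
      simp only [if_pos h2]
      refine hC v.asIdeal.ResidueField h2 (fun i => ?_) (w v) (hw v)
      rw [hch]
      have h5 : 2 * g i + 1 ≤ dm g := single_le_sum (f := fun i => 2 * g i + 1) (fun _ _ => Nat.zero_le _) (mem_univ i)
      omega

/-- **The bad primes are rare.** -/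
theorem rare_Gd {n : ℕ} (g : Fin n → ℕ) : Zet.Rare K (dm g) (fun v t => ¬ Gd (crvs t) v) (dm g) (dm g + 3) := by
  classical
  refine ⟨by positivity, fun v hv => ?_⟩
  have hfin : Finite v.asIdeal.ResidueField := Nat.finite_of_card_ne_zero (by rw [res_card]; exact (Q282.NF.nm_pos v).ne')
  let _ : Fintype v.asIdeal.ResidueField := Fintype.ofFinite _
  have hcard : Fintype.card v.asIdeal.ResidueField = Ideal.absNorm v.asIdeal := by rw [← Nat.card_eq_fintype_card, res_card]
  have hch : ringChar v.asIdeal.ResidueField = (below v : ℕ) := ringChar.eq_iff.2 (res_char v)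
  have h2 : ringChar v.asIdeal.ResidueField ≠ 2 := by rw [hch]; omega
  refine ⟨v.asIdeal.ResidueField, inferInstance, inferInstance, algebraMap (𝓞 K) v.asIdeal.ResidueField,
    fun x => ∑ i, if ¬ Squarefree (pol (blk x i)) then (1 : ℝ) else 0, res_surj v, res_char v, fun x => ?_, fun t ht => ?_, ?_⟩
  · exact sum_nonneg fun i _ => by split_ifs <;> norm_num
  · unfold Gd at ht
    simp only [crvs_map, two_iff] at ht
    push Not at ht
    obtain ⟨i, hi⟩ := ht h2
    calc (1 : ℝ) = if ¬ Squarefree (pol (blk (fun i => algebraMap (𝓞 K) v.asIdeal.ResidueField (t i)) i)) then (1 : ℝ) else 0 := by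
          rw [if_pos hi]
      _ ≤ _ := single_le_sum (f := fun i => if ¬ Squarefree (pol (blk (fun i => algebraMap (𝓞 K) v.asIdeal.ResidueField (t i)) i))
          then (1 : ℝ) else 0) (fun i _ => by split_ifs <;> norm_num) (mem_univ i)
  · have h3 : av (fun x : Fin (dm g) → v.asIdeal.ResidueField => ∑ i, if ¬ Squarefree (pol (blk x i)) then (1 : ℝ) else 0) ≤
        (dm g : ℝ) / Ideal.absNorm v.asIdeal := by
      rw [av_sum, ← hcard]
      unfold dm
      push_cast
      rw [sum_div]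
      refine sum_le_sum fun i _ => ?_
      have h4 := bad_mean g (F := v.asIdeal.ResidueField) (fun i => by
        rw [hch]
        have h5 : 2 * g i + 1 ≤ dm g := single_le_sum (f := fun i => 2 * g i + 1) (fun _ _ => Nat.zero_le _) (mem_univ i)
        omega) i
      push_cast at h4
      exact h4
    exact h3

end

end Pool.Agent.V5helper57.Tat
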