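import Pool.Agent.V5helper57.Tat.Loc
import Pool.Agent.V5helper57.Zet.Fin

/-!
# The Euler products of products of random curves with a fixed variety
-/

set_option autoImplicit false

namespace Pool.Agent.V5helper57.Tat

open Finset Polynomial NumberField IsDedekindDomain Q282.NF Pool.Agent.Y722.HS
open Pool.Agent.V5helper57.Hyp (affN res_surj res_ker res_card res_char two_iff)
open Pool.Agent.H921R2.TatePole (below deg nm nm_eq nm_summable)
open Pool.Agent.V5helper57.Zet (Wd mem_Wd tail_V core1 core2 two_le_norm)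

variable {K : Type} [Field K] [NumberField K]

/-- The traces on the cohomology of the product with the fixed variety. -/
noncomputable def TT {n : ℕ} (β : HeightOneSpectrum (𝓞 K) → ℕ → Multiset ℂ) (e : Fin n → ℕ) (k : ℕ) (f : Fin n → (𝓞 K)[X])
    (v : HeightOneSpectrum (𝓞 K)) (m : ℕ) : ℂ :=
  ∑ l ∈ range (k + 1), psm (β v (k - l)) m *
    ((PP v.asIdeal.ResidueField (fun i => (f i).map (algebraMap (𝓞 K) v.asIdeal.ResidueField)) e m).coeff l : ℂ)

/-- The generic rank. -/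
noncomputable def rk {n : ℕ} (e : Fin n → ℕ) (j : ℕ) : ℕ := (∏ i, gzN (e i)).coeff (2 * j)

/-- The traces on the part of the cohomology that comes from the fixed variety. -/
noncomputable def TC {n : ℕ} (β : HeightOneSpectrum (𝓞 K) → ℕ → Multiset ℂ) (e : Fin n → ℕ) (k : ℕ)
    (v : HeightOneSpectrum (𝓞 K)) (m : ℕ) : ℂ :=
  ∑ j ∈ range (k / 2 + 1), (rk e j : ℂ) * (psm (β v (k - 2 * j)) m * (Ideal.absNorm v.asIdeal : ℂ) ^ (j * m))

theorem rk_eq {n : ℕ} (e : Fin n → ℕ) (j : ℕ) : (rk e j : ℝ) = (∏ i, gz (e i)).coeff (2 * j) := by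
  unfold rk gz
  rw [← Polynomial.map_prod, coeff_map]
  simp

theorem prod_gz_odd {n : ℕ} (e : Fin n → ℕ) {l : ℕ} (hl : ¬ Even l) : (∏ i, gz (e i)).coeff l = 0 :=
  evn.prod univ (fun i => gz_evn (e i)) l hl

theorem sum_evenC {g : ℕ → ℂ} (hg : ∀ l, ¬ Even l → g l = 0) (k : ℕ) :
    ∑ l ∈ range (k + 1), g l = ∑ j ∈ range (k / 2 + 1), g (2 * j) := by
  have h : ∀ p : ℕ, ∑ l ∈ range (2 * p + 1), g l = ∑ j ∈ range (p + 1), g (2 * j) := by
    intro p
    induction p with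
    | zero => simp
    | succ p ih =>
      rw [show 2 * (p + 1) + 1 = 2 * p + 1 + 1 + 1 by ring, sum_range_succ, sum_range_succ, ih,
        sum_range_succ (n := p + 1), hg (2 * p + 1) (by
          rw [Nat.not_even_iff_odd]
          exact ⟨p, rfl⟩), add_zero]
      rfl
  rcases Nat.even_or_odd k with ⟨p, hp⟩ | ⟨p, hp⟩
  · have e1 : k = 2 * p := by omega
    have e2 : 2 * p / 2 = p := by omega
    rw [e1, e2, h]
  · have e2 : (2 * p + 1) / 2 = p := by omega
    rw [hp, e2, sum_range_succ, h, hg (2 * p + 1) (by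
      rw [Nat.not_even_iff_odd]
      exact ⟨p, rfl⟩), add_zero]

/-- The system of eigenvalues. -/
structure Pure (β : HeightOneSpectrum (𝓞 K) → ℕ → Multiset ℂ) (B : ℝ) : Prop where
  card : ∀ v i, ((β v i).card : ℝ) ≤ B
  norm : ∀ v i, ∀ z ∈ β v i, ‖z‖ ≤ √(Ideal.absNorm v.asIdeal) ^ i

section
variable {β : HeightOneSpectrum (𝓞 K) → ℕ → Multiset ℂ} {B : ℝ}

theorem Pure.psm_le (P : Pure β B) (v : HeightOneSpectrum (𝓞 K)) (i m : ℕ) :
    ‖psm (β v i) m‖ ≤ B * √(Ideal.absNorm v.asIdeal) ^ (i * m) := by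
  refine (Tat.psm_le (P.norm v i) m).trans ?_
  rw [pow_mul]
  exact mul_le_mul_of_nonneg_right (P.card v i) (by positivity)

theorem Pure.Bn (P : Pure β B) (v : HeightOneSpectrum (𝓞 K)) : 0 ≤ B := (Nat.cast_nonneg _).trans (P.card v 0)

/-- The bound of the traces of the product. -/
theorem Pure.tb_TT (P : Pure β B) {n : ℕ} {g e : Fin n → ℕ} (k : ℕ) {f : Fin n → (𝓞 K)[X]}
    (hf : ∀ i, ∀ v : HeightOneSpectrum (𝓞 K), ((f i).map (algebraMap (𝓞 K) v.asIdeal.ResidueField)).Monic ∧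
      ((f i).map (algebraMap (𝓞 K) v.asIdeal.ResidueField)).natDegree = 2 * g i + 1)
    {v : HeightOneSpectrum (𝓞 K)} (hv : (2 : 𝓞 K) ∉ v.asIdeal) :
    tb k (Ideal.absNorm v.asIdeal) ((k + 1) * (B * B0 k g e)) (TT β e k f v) := by
  classical
  have hB := P.Bn v
  have hB0 := (B0_pos k g e).le
  have hfin : Finite v.asIdeal.ResidueField := Nat.finite_of_card_ne_zero (by rw [res_card]; exact (Q282.NF.nm_pos v).ne')
  let _ : Fintype v.asIdeal.ResidueField := Fintype.ofFinite _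
  have hcard : Fintype.card v.asIdeal.ResidueField = Ideal.absNorm v.asIdeal := by rw [← Nat.card_eq_fintype_card, res_card]
  have h2 := (two_iff v).1 hv
  have hs0 : 0 < √(Ideal.absNorm v.asIdeal : ℝ) := Real.sqrt_pos.2 (by exact_mod_cast Q282.NF.nm_pos v)
  intro m hm
  unfold TT
  refine (norm_sum_le _ _).trans ?_
  have h1 : ∀ l ∈ range (k + 1), ‖psm (β v (k - l)) m *
      ((PP v.asIdeal.ResidueField (fun i => (f i).map (algebraMap (𝓞 K) v.asIdeal.ResidueField)) e m).coeff l : ℂ)‖ ≤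
      (B * B0 k g e) * √(Ideal.absNorm v.asIdeal) ^ (k * m) := by
    intro l hl
    have hl' := mem_range.1 hl
    rw [norm_mul, Complex.norm_real, Real.norm_eq_abs, PP_coeff, abs_mul, hcard, abs_of_nonneg (by positivity :
      (0 : ℝ) ≤ √(Ideal.absNorm v.asIdeal) ^ (m * l))]
    have h3 : |(∏ i, QQ (tr v.asIdeal.ResidueField ((f i).map (algebraMap (𝓞 K) v.asIdeal.ResidueField)) m /
        √(Ideal.absNorm v.asIdeal) ^ m) (e i)).coeff l| ≤ B0 k g e := by
      refine prod_QQ_le k g e (fun i => ?_) l (by omega)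
      have h4 := tr_le h2 (hf i v).1 (hf i v).2 hm
      rw [hcard] at h4
      rw [abs_div, abs_of_nonneg (by positivity : (0 : ℝ) ≤ √(Ideal.absNorm v.asIdeal) ^ m), div_le_iff₀ (by positivity)]
      exact h4
    have h4 := P.psm_le v (k - l) m
    calc _ ≤ (B * √(Ideal.absNorm v.asIdeal) ^ ((k - l) * m)) * (√(Ideal.absNorm v.asIdeal) ^ (m * l) * B0 k g e) := by
          gcongr
      _ = (B * B0 k g e) * (√(Ideal.absNorm v.asIdeal) ^ ((k - l) * m) * √(Ideal.absNorm v.asIdeal) ^ (m * l)) := by ring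
      _ = (B * B0 k g e) * √(Ideal.absNorm v.asIdeal) ^ (k * m) := by
          rw [← pow_add]
          congr 2
          have : (k - l) * m + m * l = (k - l + l) * m := by ring
          rw [this, Nat.sub_add_cancel (by omega)]
  refine (sum_le_sum h1).trans (le_of_eq ?_)
  rw [sum_const, card_range, nsmul_eq_mul]
  push_cast
  ring

/-- The bound of the traces of one term of the comparison. -/
theorem Pure.tb_one (P : Pure β B) {k j : ℕ} (hj : 2 * j ≤ k) (v : HeightOneSpectrum (𝓞 K)) :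
    tb k (Ideal.absNorm v.asIdeal) B (fun m => psm (β v (k - 2 * j)) m * (Ideal.absNorm v.asIdeal : ℂ) ^ (j * m)) := by
  intro m _
  have hN0 : (0 : ℝ) ≤ Ideal.absNorm v.asIdeal := Nat.cast_nonneg _
  rw [norm_mul, norm_pow, Complex.norm_natCast]
  have h1 : (Ideal.absNorm v.asIdeal : ℝ) ^ (j * m) = √(Ideal.absNorm v.asIdeal) ^ (2 * j * m) := by
    rw [mul_assoc, pow_mul _ 2 (j * m), Real.sq_sqrt hN0]
  rw [h1]
  calc _ ≤ (B * √(Ideal.absNorm v.asIdeal) ^ ((k - 2 * j) * m)) * √(Ideal.absNorm v.asIdeal) ^ (2 * j * m) := by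
        have := P.psm_le v (k - 2 * j) m
        gcongr
    _ = B * √(Ideal.absNorm v.asIdeal) ^ (k * m) := by
        rw [mul_assoc, ← pow_add]
        congr 2
        have : (k - 2 * j) * m + 2 * j * m = (k - 2 * j + 2 * j) * m := by ring
        rw [this, Nat.sub_add_cancel hj]

/-- The bound of the traces of the comparison. -/
theorem Pure.tb_TC (P : Pure β B) {n : ℕ} (e : Fin n → ℕ) (k : ℕ) (v : HeightOneSpectrum (𝓞 K)) :
    tb k (Ideal.absNorm v.asIdeal) ((∑ j ∈ range (k / 2 + 1), (rk e j : ℝ)) * B) (TC β e k v) := by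
  intro m hm
  unfold TC
  refine (norm_sum_le _ _).trans ?_
  rw [sum_mul, sum_mul]
  refine sum_le_sum fun j hj => ?_
  have hj' := mem_range.1 hj
  rw [norm_mul, Complex.norm_natCast, mul_assoc]
  exact mul_le_mul_of_nonneg_left (P.tb_one (k := k) (j := j) (by omega) v m hm) (Nat.cast_nonneg _)

/-- The normalised traces of the fixed variety. -/
noncomputable def Wt (β : HeightOneSpectrum (𝓞 K) → ℕ → Multiset ℂ) (k : ℕ) (v : HeightOneSpectrum (𝓞 K)) (l : ℕ) : ℂ :=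
  psm (β v (k - l)) 1 / (√(Ideal.absNorm v.asIdeal) : ℂ) ^ (k - l)

theorem Pure.Wt_le (P : Pure β B) (k : ℕ) (v : HeightOneSpectrum (𝓞 K)) (l : ℕ) : ‖Wt β k v l‖ ≤ B := by
  have hs0 : 0 < √(Ideal.absNorm v.asIdeal : ℝ) := Real.sqrt_pos.2 (by exact_mod_cast Q282.NF.nm_pos v)
  unfold Wt
  have h1 := P.psm_le v (k - l) 1
  rw [mul_one] at h1
  rw [norm_div, norm_pow, Complex.norm_real, Real.norm_of_nonneg hs0.le, div_le_iff₀ (by positivity)]
  exact h1

/-- **The first trace.** -/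
theorem first {n : ℕ} {e : Fin n → ℕ} {k : ℕ} {f : Fin n → (𝓞 K)[X]} {v : HeightOneSpectrum (𝓞 K)}
    (hv : Gd f v) :
    (TT β e k f v 1 - TC β e k v 1) * (√(Ideal.absNorm v.asIdeal) : ℂ) =
      ((aw e k (fun v l => (Wt β k v l).re) f v : ℂ) + (aw e k (fun v l => (Wt β k v l).im) f v : ℂ) * Complex.I) *
        (√(Ideal.absNorm v.asIdeal) : ℂ) ^ k := by
  classical
  have hfin : Finite v.asIdeal.ResidueField := Nat.finite_of_card_ne_zero (by rw [res_card]; exact (Q282.NF.nm_pos v).ne')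
  let _ : Fintype v.asIdeal.ResidueField := Fintype.ofFinite _
  have hcard : Fintype.card v.asIdeal.ResidueField = Ideal.absNorm v.asIdeal := by rw [← Nat.card_eq_fintype_card, res_card]
  have hN0 : (0 : ℝ) < Ideal.absNorm v.asIdeal := by exact_mod_cast Q282.NF.nm_pos v
  have hs0 : 0 < √(Ideal.absNorm v.asIdeal : ℝ) := Real.sqrt_pos.2 hN0
  obtain ⟨S, hS⟩ : ∃ S : ℂ, S = (√(Ideal.absNorm v.asIdeal) : ℂ) := ⟨_, rfl⟩
  have hS0 : S ≠ 0 := by
    rw [hS]
    exact_mod_cast hs0.ne'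
  obtain ⟨fv, hfv⟩ : ∃ fv : Fin n → v.asIdeal.ResidueField[X], fv = fun i => (f i).map (algebraMap (𝓞 K) v.asIdeal.ResidueField) := ⟨_, rfl⟩
  have h1 : TT β e k f v 1 = ∑ l ∈ range (k + 1), S ^ k * (Wt β k v l * (tau fv e l : ℂ)) := by
    unfold TT
    refine sum_congr rfl fun l hl => ?_
    have hl' := mem_range.1 hl
    rw [← hfv, PP_coeff, hcard]
    have h3 : (∏ i, QQ (tr v.asIdeal.ResidueField (fv i) 1 / √(Ideal.absNorm v.asIdeal) ^ 1) (e i)).coeff l = tau fv e l := by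
      unfold tau
      rw [Nat.card_eq_fintype_card, hcard]
      simp only [pow_one]
    rw [h3]
    push_cast
    rw [one_mul, ← hS]
    unfold Wt
    rw [← hS]
    have h4 : S ^ k = S ^ (k - l) * S ^ l := by rw [← pow_add, Nat.sub_add_cancel (by omega)]
    rw [h4]
    have h5 : S ^ (k - l) ≠ 0 := pow_ne_zero _ hS0
    field_simp
  have h2 : TC β e k v 1 = ∑ l ∈ range (k + 1), S ^ k * (Wt β k v l * ((∏ i, gz (e i)).coeff l : ℂ)) := by
    rw [sum_evenC (fun l hl => by rw [prod_gz_odd e hl, Complex.ofReal_zero, mul_zero, mul_zero]) k]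
    unfold TC
    refine sum_congr rfl fun j hj => ?_
    have hj' := mem_range.1 hj
    rw [← rk_eq]
    unfold Wt
    rw [← hS, mul_one]
    have h4 : S ^ k = S ^ (k - 2 * j) * (Ideal.absNorm v.asIdeal : ℂ) ^ j := by
      have h6 : (Ideal.absNorm v.asIdeal : ℂ) = S ^ 2 := by
        rw [hS]
        norm_cast
        rw [Real.sq_sqrt hN0.le]
      rw [h6, ← pow_mul, ← pow_add, Nat.sub_add_cancel (by omega)]
    rw [h4]
    have h5 : S ^ (k - 2 * j) ≠ 0 := pow_ne_zero _ hS0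
    push_cast
    field_simp
  have h3 : (aw e k (fun v l => (Wt β k v l).re) f v : ℂ) + (aw e k (fun v l => (Wt β k v l).im) f v : ℂ) * Complex.I =
      S * ∑ l ∈ range (k + 1), Wt β k v l * ((tau fv e l : ℂ) - ((∏ i, gz (e i)).coeff l : ℂ)) := by
    unfold aw
    rw [if_pos hv, if_pos hv]
    unfold ws
    rw [← hfv]
    push_cast
    rw [← hS, mul_assoc S, ← mul_add, sum_mul, ← sum_add_distrib]
    congr 1
    refine sum_congr rfl fun l _ => ?_
    have h4 := Complex.re_add_im (Wt β k v l)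
    linear_combination ((tau fv e l : ℂ) - ((∏ i, gz (e i)).coeff l : ℂ)) * h4
  rw [h1, h2, h3, ← sum_sub_distrib, ← hS, sum_mul, mul_sum, sum_mul]
  refine sum_congr rfl fun l _ => ?_
  ring

open Classical in
/-- The factor of the quotient. -/
noncomputable def rf {n : ℕ} (β : HeightOneSpectrum (𝓞 K) → ℕ → Multiset ℂ) (e : Fin n → ℕ) (k : ℕ) (f : Fin n → (𝓞 K)[X])
    (s : ℂ) (v : HeightOneSpectrum (𝓞 K)) : ℂ :=
  (if Gd f v then eul (TT β e k f v) (Ideal.absNorm v.asIdeal) s else 1) * (eul (TC β e k v) (Ideal.absNorm v.asIdeal) s)⁻¹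

/-- **The products over windows** are close to one for almost all parameters. -/
theorem stable (hB : 0 ≤ B) (P : Pure β B) {n : ℕ} (g e : Fin n → ℕ) (k : ℕ) (hgk : ∀ i, min (e i) k ≤ 2 * g i + 1)
    {d : ℕ} (b : Fin d → 𝓞 K) (hb : ∀ x : 𝓞 K, ∃ a : Fin d → ℤ, x = ∑ j, (a j : 𝓞 K) * b j)
    {σ : ℝ} (hσ : ((k : ℝ) + 1) / 2 < σ) {R δ : ℝ} (hR : 0 ≤ R) (hδ : 0 < δ) :
    ∃ y0 : ℕ, 1 ≤ y0 ∧ ∀ H : ℕ, ∃ M : (Fin (dm g) × Fin d → ℤ) → ℝ, (∀ c, 0 ≤ M c) ∧ EB H M ≤ δ ∧
      ∀ c, M c < 1 → ∀ s : ℂ, σ ≤ s.re → ‖s‖ ≤ R → ∀ X Y : ℕ, y0 ≤ X → X ≤ Y → Y ^ 7 ≤ H →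
        ∃ E : ℂ, ∏ v ∈ Wd K X Y, rf β e k (crvs (combine b (fun i j => c (i, j)))) s v = Complex.exp E ∧ ‖E‖ ≤ δ := by
  classical
  obtain ⟨σ', hσ'⟩ : ∃ σ' : ℝ, σ' = σ - ((k : ℝ) - 1) / 2 := ⟨_, rfl⟩
  have hσ1 : 1 < σ' := by rw [hσ']; linarith
  obtain ⟨R', hR'⟩ : ∃ R' : ℝ, R' = R + (k + 1) := ⟨_, rfl⟩
  have hR'0 : 0 ≤ R' := by rw [hR']; positivity
  obtain ⟨A, C, hAC⟩ := loc_aw (K := K) g e k hgk hB
  obtain ⟨y1, hy1, h1⟩ := core1 (hAC (fun v l => (Wt β k v l).re) fun v l => (Complex.abs_re_le_norm _).trans (P.Wt_le k v l)) b hb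
    hσ1 hR'0 (δ := δ / 8) (by positivity)
  obtain ⟨y2, hy2, h2⟩ := core1 (hAC (fun v l => (Wt β k v l).im) fun v l => (Complex.abs_im_le_norm _).trans (P.Wt_le k v l)) b hb
    hσ1 hR'0 (δ := δ / 8) (by positivity)
  obtain ⟨D1, hD1⟩ : ∃ D1 : ℝ, D1 = (k + 1) * (B * B0 k g e) := ⟨_, rfl⟩
  obtain ⟨D2, hD2⟩ : ∃ D2 : ℝ, D2 = (∑ j ∈ range (k / 2 + 1), (rk e j : ℝ)) * B := ⟨_, rfl⟩
  have hD10 : 0 ≤ D1 := by
    have := (B0_pos k g e).le
    rw [hD1]
    positivity
  have hD20 : 0 ≤ D2 := by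
    rw [hD2]
    exact mul_nonneg (sum_nonneg fun _ _ => Nat.cast_nonneg _) hB
  obtain ⟨y3, h3⟩ := core2 (rare_Gd (K := K) g) b hb hσ1 (δ := δ / (8 * (D2 + 1))) (by positivity)
  obtain ⟨N4, hN4⟩ := tail_V (K := K) ((nm_summable (K := K) (x := 2 * σ' - 1) (by linarith)).mul_left (4 * (D1 + D2))) (δ := δ / 8) (by positivity)
  refine ⟨y1 + y2 + y3 + N4, by omega, fun H => ?_⟩
  obtain ⟨M1, hM1, hM1', hM1''⟩ := h1 H
  obtain ⟨M2, hM2, hM2', hM2''⟩ := h2 H
  obtain ⟨M3, hM3, hM3', hM3''⟩ := h3 H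
  refine ⟨fun c => M1 c + M2 c + M3 c, fun c => add_nonneg (add_nonneg (hM1 c) (hM2 c)) (hM3 c), ?_,
    fun c hc s hs hsR X Y hX hXY hY => ?_⟩
  · have e : EB H (fun c => M1 c + M2 c + M3 c) = EB H M1 + EB H M2 + EB H M3 := by
      unfold EB
      rw [sum_add_distrib, sum_add_distrib, add_div, add_div]
    have h4 : δ / (8 * (D2 + 1)) ≤ δ / 8 := by
      apply div_le_div_of_nonneg_left hδ.le (by norm_num)
      linarith
    rw [e]
    linarith
  · have hc1 : M1 c < 1 := by have := hM2 c; have := hM3 c; linarith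
    have hc2 : M2 c < 1 := by have := hM1 c; have := hM3 c; linarith
    have hc3 : M3 c < 1 := by have := hM1 c; have := hM2 c; linarith
    obtain ⟨s', hs'⟩ : ∃ s' : ℂ, s' = s - (((k : ℝ) - 1) / 2 : ℝ) := ⟨_, rfl⟩
    have hs're : σ' ≤ s'.re := by
      rw [hs', Complex.sub_re, Complex.ofReal_re, hσ']
      linarith
    have hs'R : ‖s'‖ ≤ R' := by
      rw [hs', hR']
      refine (norm_sub_le _ _).trans (add_le_add hsR ?_)
      rw [Complex.norm_real, Real.norm_eq_abs, abs_le]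
      have : (0 : ℝ) ≤ k := Nat.cast_nonneg k
      constructor <;> linarith
    have hs2 : σ' + ((k : ℝ) - 1) / 2 ≤ s.re := by rw [hσ']; linarith
    have k1 := hM1'' c hc1 s' hs're hs'R X Y (by omega) hXY hY
    have k2 := hM2'' c hc2 s' hs're hs'R X Y (by omega) hXY hY
    have k3 := hM3'' c hc3 X Y (by omega) hXY hY
    obtain ⟨t, ht⟩ : ∃ t, t = combine b (fun i j => c (i, j)) := ⟨_, rfl⟩
    rw [← ht] at k1 k2 k3 ⊢
    have hf : ∀ i, ∀ v : HeightOneSpectrum (𝓞 K), ((crvs t i).map (algebraMap (𝓞 K) v.asIdeal.ResidueField)).Monic ∧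
        ((crvs t i).map (algebraMap (𝓞 K) v.asIdeal.ResidueField)).natDegree = 2 * g i + 1 := by
      intro i v
      rw [crvs_map]
      exact pol_monic _
    -- the exponents
    obtain ⟨τ, hτ⟩ : ∃ τ : HeightOneSpectrum (𝓞 K) → ℕ → ℂ, τ = fun v m => (if Gd (crvs t) v then TT β e k (crvs t) v m else 0) +
        -TC β e k v m := ⟨_, rfl⟩
    have hrf : ∀ v, rf β e k (crvs t) s v = eul (τ v) (Ideal.absNorm v.asIdeal) s := by
      intro v
      unfold rf
      rw [← eul_neg]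
      by_cases hg : Gd (crvs t) v
      · rw [if_pos hg, eul_mul (two_le_norm v) hD10 hD20 (k := k) (by rw [hD1]; exact P.tb_TT k hf hg.1)
          (by rw [hD2]; exact (P.tb_TC e k v).neg) hσ1 hs2, hτ]
        simp only [if_pos hg]
      · rw [if_neg hg, one_mul, hτ]
        simp only [if_neg hg, zero_add]
    have htb : ∀ v, tb k (Ideal.absNorm v.asIdeal) (D1 + D2) (τ v) := by
      intro v
      rw [hτ]
      refine tb.add ?_ (by rw [hD2]; exact (P.tb_TC e k v).neg)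
      by_cases hg : Gd (crvs t) v
      · simp only [if_pos hg]
        rw [hD1]
        exact P.tb_TT k hf hg.1
      · simp only [if_neg hg]
        intro m _
        rw [norm_zero]
        positivity
    obtain ⟨ex, hex⟩ : ∃ ex : HeightOneSpectrum (𝓞 K) → ℂ, ex = fun v => (∑' m : ℕ, τ v (m + 1) *
        ((Ideal.absNorm v.asIdeal : ℕ) : ℂ) ^ (-((m + 1 : ℕ) : ℂ) * s) / ((m + 1 : ℕ) : ℂ)) := ⟨_, rfl⟩
    refine ⟨∑ v ∈ Wd K X Y, ex v, ?_, ?_⟩
    · rw [Complex.exp_sum]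
      refine prod_congr rfl fun v _ => ?_
      rw [hrf, hex]
      rfl
    · have hnear : ∀ v, ‖ex v - τ v 1 * ((Ideal.absNorm v.asIdeal : ℕ) : ℂ) ^ (-s)‖ ≤
          4 * (D1 + D2) * (Ideal.absNorm v.asIdeal : ℝ) ^ (-(2 * σ' - 1)) := by
        intro v
        rw [hex]
        exact eul_near (two_le_norm v) (by positivity) (htb v) hσ1 hs2
      have hsum : ∑ v ∈ Wd K X Y, ex v = ∑ v ∈ Wd K X Y, (ex v - τ v 1 * ((Ideal.absNorm v.asIdeal : ℕ) : ℂ) ^ (-s)) +
          ∑ v ∈ Wd K X Y, τ v 1 * ((Ideal.absNorm v.asIdeal : ℕ) : ℂ) ^ (-s) := by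
        rw [← sum_add_distrib]
        exact sum_congr rfl fun v _ => by ring
      have hS1 : ‖∑ v ∈ Wd K X Y, (ex v - τ v 1 * ((Ideal.absNorm v.asIdeal : ℕ) : ℂ) ^ (-s))‖ ≤ δ / 8 := by
        refine (norm_sum_le _ _).trans ((sum_le_sum fun v _ => hnear v).trans ?_)
        exact hN4 X Y (by omega)
      -- the first terms
      have hfirst : ∀ v, τ v 1 * ((Ideal.absNorm v.asIdeal : ℕ) : ℂ) ^ (-s) =
          (aw e k (fun v l => (Wt β k v l).re) (crvs t) v : ℂ) * ((Ideal.absNorm v.asIdeal : ℕ) : ℂ) ^ (-s') +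
          ((aw e k (fun v l => (Wt β k v l).im) (crvs t) v : ℂ) * ((Ideal.absNorm v.asIdeal : ℕ) : ℂ) ^ (-s')) * Complex.I +
          (if ¬ Gd (crvs t) v then -TC β e k v 1 * ((Ideal.absNorm v.asIdeal : ℕ) : ℂ) ^ (-s) else 0) := by
        intro v
        by_cases hg : Gd (crvs t) v
        · rw [hτ, if_neg (not_not.2 hg), add_zero]
          simp only [if_pos hg]
          have hN0 : (0 : ℝ) < Ideal.absNorm v.asIdeal := by exact_mod_cast Q282.NF.nm_pos v
          have hNC : ((Ideal.absNorm v.asIdeal : ℕ) : ℂ) ≠ 0 := by exact_mod_cast hN0.ne'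
          have hs0 : 0 < √(Ideal.absNorm v.asIdeal : ℝ) := Real.sqrt_pos.2 hN0
          have hSC : (√(Ideal.absNorm v.asIdeal) : ℂ) ≠ 0 := by exact_mod_cast hs0.ne'
          have h4 := first (β := β) (e := e) (k := k) hg
          have h5 : ((Ideal.absNorm v.asIdeal : ℕ) : ℂ) ^ (-s') * (√(Ideal.absNorm v.asIdeal) : ℂ) =
              ((Ideal.absNorm v.asIdeal : ℕ) : ℂ) ^ (-s) * (√(Ideal.absNorm v.asIdeal) : ℂ) ^ k := by
            have h6 : (√(Ideal.absNorm v.asIdeal) : ℂ) = ((Ideal.absNorm v.asIdeal : ℕ) : ℂ) ^ ((1 / 2 : ℝ) : ℂ) := by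
              rw [Real.sqrt_eq_rpow, Complex.ofReal_cpow hN0.le]
              norm_cast
            rw [h6, ← Complex.cpow_nat_mul, ← Complex.cpow_add _ _ hNC, ← Complex.cpow_add _ _ hNC, hs']
            congr 1
            push_cast
            ring
          have h7 : (TT β e k (crvs t) v 1 + -TC β e k v 1) * ((Ideal.absNorm v.asIdeal : ℕ) : ℂ) ^ (-s) * (√(Ideal.absNorm v.asIdeal) : ℂ) =
              ((aw e k (fun v l => (Wt β k v l).re) (crvs t) v : ℂ) * ((Ideal.absNorm v.asIdeal : ℕ) : ℂ) ^ (-s') +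
              ((aw e k (fun v l => (Wt β k v l).im) (crvs t) v : ℂ) * ((Ideal.absNorm v.asIdeal : ℕ) : ℂ) ^ (-s')) * Complex.I) *
              (√(Ideal.absNorm v.asIdeal) : ℂ) := by
            linear_combination ((Ideal.absNorm v.asIdeal : ℕ) : ℂ) ^ (-s) * h4 -
              ((aw e k (fun v l => (Wt β k v l).re) (crvs t) v : ℂ) + (aw e k (fun v l => (Wt β k v l).im) (crvs t) v : ℂ) * Complex.I) * h5
          exact mul_right_cancel₀ hSC h7
        · rw [hτ, if_pos hg]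
          simp only [if_neg hg, zero_add]
          unfold aw
          rw [if_neg hg, if_neg hg]
          simp
      have hbad : ‖∑ v ∈ Wd K X Y, (if ¬ Gd (crvs t) v then -TC β e k v 1 * ((Ideal.absNorm v.asIdeal : ℕ) : ℂ) ^ (-s) else 0)‖ ≤ δ / 8 := by
        refine (norm_sum_le _ _).trans (le_trans (sum_le_sum (g := fun v => D2 * (if ¬ Gd (crvs t) v then
          (Ideal.absNorm v.asIdeal : ℝ) ^ (1 / 2 - σ') else 0)) fun v hv => ?_) ?_)
        · by_cases hg : Gd (crvs t) v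
          · rw [if_neg (not_not.2 hg), if_neg (not_not.2 hg)]
            simp
          · rw [if_pos hg, if_pos hg]
            have h4 := term_le (two_le_norm v) hD20 (τ := fun m => -TC β e k v m) (by rw [hD2]; exact (P.tb_TC e k v).neg) hs2 0
            rw [zero_add, pow_one] at h4
            refine le_trans (le_of_eq ?_) h4
            congr 1
            simp
        · rw [← mul_sum]
          have h4 : ∑ v ∈ Wd K X Y, (if ¬ Gd (crvs t) v then (Ideal.absNorm v.asIdeal : ℝ) ^ (1 / 2 - σ') else 0) ≤ δ / (8 * (D2 + 1)) := by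
            refine le_trans (le_of_eq (sum_congr rfl fun v _ => ?_)) k3
            by_cases hg : Gd (crvs t) v
            · rw [if_neg (not_not.2 hg), if_neg (not_not.2 hg)]
            · rw [if_pos hg, if_pos hg]
          calc D2 * _ ≤ D2 * (δ / (8 * (D2 + 1))) := mul_le_mul_of_nonneg_left h4 hD20
            _ = δ / 8 * (D2 / (D2 + 1)) := by field_simp
            _ ≤ δ / 8 * 1 := by
                refine mul_le_mul_of_nonneg_left ?_ (by positivity)
                rw [div_le_one (by linarith)]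
                linarith
            _ = δ / 8 := mul_one _
      have hS2 : ‖∑ v ∈ Wd K X Y, τ v 1 * ((Ideal.absNorm v.asIdeal : ℕ) : ℂ) ^ (-s)‖ ≤ δ / 8 + δ / 8 + δ / 8 := by
        rw [sum_congr rfl fun v _ => hfirst v, sum_add_distrib, sum_add_distrib]
        refine (norm_add_le _ _).trans (add_le_add ((norm_add_le _ _).trans (add_le_add k1 ?_)) hbad)
        rw [← sum_mul, norm_mul, Complex.norm_I, mul_one]
        exact k2
      rw [hsum]
      refine (norm_add_le _ _).trans ?_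
      linarith

end

end Pool.Agent.V5helper57.Tat
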